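import Mathlib

/-!
# Binary forms: values, relations between values, nonvanishing determinants
-/

set_option autoImplicit false

namespace Pool.Agent.H99.Bd

open Finset Matrix Polynomial

/-- the value at `(a, b)` of the binary form of degree `n - 1` with the coefficients of `f` -/
def hv {R : Type*} [CommRing R] (n : ℕ) (f : R[X]) (p : R × R) : R :=
  ∑ j : Fin n, f.coeff j.1 * (p.1 ^ j.1 * p.2 ^ j.rev.1)

theorem hv_range {R : Type*} [CommRing R] (n : ℕ) (f : R[X]) (p : R × R) :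
    hv (n + 1) f p = ∑ k ∈ range (n + 1), f.coeff k * (p.1 ^ k * p.2 ^ (n - k)) := by
  unfold hv
  rw [Finset.sum_range]
  refine sum_congr rfl fun j _ => ?_
  rw [Fin.val_rev]
  congr 3
  omega

theorem hv_add {R : Type*} [CommRing R] (n : ℕ) (f g : R[X]) (p : R × R) :
    hv n (f + g) p = hv n f p + hv n g p := by
  unfold hv
  rw [← Finset.sum_add_distrib]
  refine sum_congr rfl fun j _ => ?_
  rw [coeff_add]
  ring

theorem hv_C_mul {R : Type*} [CommRing R] (n : ℕ) (c : R) (f : R[X]) (p : R × R) :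
    hv n (C c * f) p = c * hv n f p := by
  unfold hv
  rw [Finset.mul_sum]
  refine sum_congr rfl fun j _ => ?_
  rw [coeff_C_mul]
  ring

theorem hv_zero {R : Type*} [CommRing R] (n : ℕ) (p : R × R) : hv n (0 : R[X]) p = 0 := by
  unfold hv
  simp

theorem hv_sum {R : Type*} [CommRing R] {ι : Type*} (n : ℕ) (s : Finset ι) (f : ι → R[X])
    (p : R × R) : hv n (∑ i ∈ s, f i) p = ∑ i ∈ s, hv n (f i) p := by
  classical
  induction s using Finset.induction_on with
  | empty => simp [hv_zero]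
  | insert a s ha ih => rw [sum_insert ha, sum_insert ha, hv_add, ih]

theorem hv_monomial {R : Type*} [CommRing R] (n k : ℕ) (hk : k ≤ n) (c : R) (p : R × R) :
    hv (n + 1) (monomial k c) p = c * (p.1 ^ k * p.2 ^ (n - k)) := by
  rw [hv_range, Finset.sum_eq_single k]
  · rw [coeff_monomial, if_pos rfl]
  · intro b _ hb
    rw [coeff_monomial, if_neg (Ne.symm hb), zero_mul]
  · intro h
    exact absurd (mem_range.2 (by omega)) h

/-- multiplicativity -/
theorem hv_mul {R : Type*} [CommRing R] (d e : ℕ) (f g : R[X]) (hf : f.natDegree ≤ d)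
    (hg : g.natDegree ≤ e) (p : R × R) :
    hv (d + e + 1) (f * g) p = hv (d + 1) f p * hv (e + 1) g p := by
  have hf' : f = ∑ k ∈ range (d + 1), monomial k (f.coeff k) :=
    f.as_sum_range' (d + 1) (by omega)
  have hg' : g = ∑ k ∈ range (e + 1), monomial k (g.coeff k) :=
    g.as_sum_range' (e + 1) (by omega)
  have h1 : f * g = ∑ k ∈ range (d + 1), ∑ l ∈ range (e + 1),
      monomial (k + l) (f.coeff k * g.coeff l) := by
    conv_lhs => rw [hf', hg']
    rw [Finset.sum_mul_sum]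
    simp only [monomial_mul_monomial]
  rw [h1, hv_sum, hv_range d f, hv_range e g, Finset.sum_mul_sum]
  refine sum_congr rfl fun k hk => ?_
  rw [hv_sum]
  refine sum_congr rfl fun l hl => ?_
  rw [mem_range] at hk hl
  rw [hv_monomial (d + e) (k + l) (by omega)]
  have h2 : d + e - (k + l) = (d - k) + (e - l) := by omega
  rw [h2, pow_add, pow_add]
  ring

/-- the points are pairwise not proportional -/
def Dist {ι : Type*} (P : ι → ℤ × ℤ) : Prop :=
  ∀ i j, i ≠ j → (P i).1 * (P j).2 ≠ (P j).1 * (P i).2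

/-- the Vandermonde matrix of the points -/
def vm {m : ℕ} (n : ℕ) (P : Fin m → ℤ × ℤ) : Matrix (Fin m) (Fin n) ℤ :=
  Matrix.of fun i j => (P i).1 ^ j.1 * (P i).2 ^ j.rev.1

theorem vm_det {n : ℕ} {P : Fin n → ℤ × ℤ} (hP : Dist P) : (vm n P).det ≠ 0 := by
  have h1 : vm n P = projVandermonde (fun i => (P i).1) (fun i => (P i).2) := by
    ext i j
    rw [projVandermonde_apply]
    rfl
  rw [h1, det_projVandermonde, prod_ne_zero_iff]
  intro i _
  rw [prod_ne_zero_iff]
  intro j hj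
  rw [Finset.mem_Ioi] at hj
  exact sub_ne_zero.2 (hP j i hj.ne')

theorem vm_mulVec {m n : ℕ} (P : Fin m → ℤ × ℤ) (f : ℤ[X]) (i : Fin m) :
    (vm n P *ᵥ fun j => f.coeff j.1) i = hv n f (P i) := by
  unfold hv
  rw [Matrix.mulVec, dotProduct]
  refine sum_congr rfl fun j _ => ?_
  rw [mul_comm]
  rfl

/-- a form of degree `n - 1` with `n` zeros is zero -/
theorem eq_zero_of_hv {n : ℕ} {P : Fin n → ℤ × ℤ} (hP : Dist P) {f : ℤ[X]}
    (hf : f.degree < n) (h : ∀ i, hv n f (P i) = 0) : f = 0 := by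
  have h1 : vm n P *ᵥ (fun j : Fin n => f.coeff j.1) = 0 := by
    funext i
    rw [vm_mulVec, h]
    rfl
  have h2 := Matrix.eq_zero_of_mulVec_eq_zero (vm_det hP) h1
  ext k
  rw [coeff_zero]
  by_cases hk : k < n
  · exact congrFun h2 ⟨k, hk⟩
  · exact coeff_eq_zero_of_degree_lt (hf.trans_le (by exact_mod_cast (not_lt.1 hk)))

theorem Dist.comp {ι κ : Type*} {P : ι → ℤ × ℤ} (hP : Dist P) {e : κ → ι}
    (he : Function.Injective e) : Dist (fun k => P (e k)) := fun _ _ h => hP _ _ (he.ne h)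

/-- determinant bound -/
theorem det_bd {n : ℕ} (M : Matrix (Fin n) (Fin n) ℤ) {B : ℕ} (h : ∀ i j, |M i j| ≤ (B : ℤ)) :
    |M.det| ≤ ((n.factorial * B ^ n : ℕ) : ℤ) := by
  have := Matrix.det_le (A := M) (abv := AbsoluteValue.abs) (x := (B : ℤ)) (fun i j => h i j)
  rw [Fintype.card_fin] at this
  rw [AbsoluteValue.abs_apply, nsmul_eq_mul] at this
  push_cast
  exact this

theorem adj_bd {n : ℕ} (M : Matrix (Fin n) (Fin n) ℤ) {B : ℕ} (hB : 1 ≤ B)
    (h : ∀ i j, |M i j| ≤ (B : ℤ)) (i j : Fin n) :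
    |M.adjugate i j| ≤ ((n.factorial * B ^ n : ℕ) : ℤ) := by
  rw [Matrix.adjugate_apply]
  refine det_bd _ fun k l => ?_
  by_cases hkj : k = j
  · rw [hkj, Matrix.updateRow_self]
    by_cases hil : l = i
    · rw [hil, Pi.single_eq_same, abs_one]
      exact_mod_cast hB
    · rw [Pi.single_eq_of_ne hil, abs_zero]
      positivity
  · rw [Matrix.updateRow_ne hkj]
    exact h k l

theorem vm_bd {m n : ℕ} {P : Fin m → ℤ × ℤ} {H : ℕ} (hH : 1 ≤ H)
    (hP : ∀ i, |(P i).1| ≤ (H : ℤ) ∧ |(P i).2| ≤ (H : ℤ)) (i : Fin m) (j : Fin n) :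
    |vm n P i j| ≤ ((H ^ n : ℕ) : ℤ) := by
  unfold vm
  rw [Matrix.of_apply, abs_mul, abs_pow, abs_pow]
  have h1 : j.1 + j.rev.1 ≤ n := by
    rw [Fin.val_rev]
    omega
  have hHz : (1 : ℤ) ≤ H := by exact_mod_cast hH
  calc |(P i).1| ^ j.1 * |(P i).2| ^ j.rev.1 ≤ (H : ℤ) ^ j.1 * (H : ℤ) ^ j.rev.1 :=
        mul_le_mul (pow_le_pow_left₀ (abs_nonneg _) (hP i).1 _)
          (pow_le_pow_left₀ (abs_nonneg _) (hP i).2 _) (by positivity) (by positivity)
    _ = (H : ℤ) ^ (j.1 + j.rev.1) := (pow_add _ _ _).symm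
    _ ≤ (H : ℤ) ^ n := pow_le_pow_right₀ hHz h1
    _ = _ := by push_cast; rfl

/-- the relation between the values of a form of degree `n - 1` at `n + 1` points -/
theorem exists_rel {n : ℕ} {P : Fin (n + 1) → ℤ × ℤ} (hP : Dist P) {H : ℕ} (hH : 1 ≤ H)
    (hPH : ∀ i, |(P i).1| ≤ (H : ℤ) ∧ |(P i).2| ≤ (H : ℤ)) :
    ∃ u : Fin (n + 1) → ℤ, (∀ i, u i ≠ 0) ∧
      (∀ i, |u i| ≤ ((n.factorial * (H ^ n) ^ n : ℕ) : ℤ)) ∧
      ∀ f : ℤ[X], ∑ i, u i * hv n f (P i) = 0 := by
  obtain ⟨M, hM⟩ : ∃ M : Matrix (Fin (n + 1)) (Fin n) ℤ, M = vm n P := ⟨_, rfl⟩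
  have hsub : ∀ i : Fin (n + 1), M.submatrix i.succAbove id = vm n (fun k => P (i.succAbove k)) := by
    intro i
    rw [hM]
    rfl
  refine ⟨fun i => (-1) ^ (i : ℕ) * (M.submatrix i.succAbove id).det, fun i => ?_, fun i => ?_,
    fun f => ?_⟩
  · refine mul_ne_zero (pow_ne_zero _ (by norm_num)) ?_
    rw [hsub]
    exact vm_det (hP.comp Fin.succAbove_right_injective)
  · rw [abs_mul, abs_pow, abs_neg, abs_one, one_pow, one_mul, hsub]
    exact det_bd _ fun k l => vm_bd hH (fun k => hPH _) k l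
  · -- the determinant with a repeated combination of columns
    have h1 : ∀ j : Fin n, ∑ i : Fin (n + 1), (-1) ^ (i : ℕ) * (M.submatrix i.succAbove id).det *
        M i j = 0 := by
      intro j
      obtain ⟨A, hA⟩ : ∃ A : Matrix (Fin (n + 1)) (Fin (n + 1)) ℤ,
          A = Matrix.of fun i => (Fin.cons (M i j) (M i) : Fin (n + 1) → ℤ) := ⟨_, rfl⟩
      have h2 : A.det = 0 := by
        apply Matrix.det_zero_of_column_eq (i := 0) (j := j.succ) (Fin.succ_ne_zero j).symm
        intro k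
        rw [hA]
        simp
      rw [Matrix.det_succ_column_zero] at h2
      rw [← h2]
      refine sum_congr rfl fun i _ => ?_
      have h3 : A i 0 = M i j := by
        rw [hA]
        simp
      have h4 : A.submatrix i.succAbove Fin.succ = M.submatrix i.succAbove id := by
        ext k l
        rw [hA]
        simp
      rw [h3, h4]
      ring
    have h5 : ∀ i, hv n f (P i) = ∑ j : Fin n, f.coeff j.1 * M i j := by
      intro i
      rw [hM]
      rfl
    simp only [h5, Finset.mul_sum]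
    rw [Finset.sum_comm]
    refine Finset.sum_eq_zero fun j _ => ?_
    have h6 := h1 j
    calc ∑ i : Fin (n + 1), (-1) ^ (i : ℕ) * (M.submatrix i.succAbove id).det *
        (f.coeff j.1 * M i j) =
        f.coeff j.1 * ∑ i : Fin (n + 1), (-1) ^ (i : ℕ) * (M.submatrix i.succAbove id).det *
        M i j := by
          rw [Finset.mul_sum]
          refine sum_congr rfl fun i _ => by ring
      _ = 0 := by rw [h6, mul_zero]

end Pool.Agent.H99.Bd
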