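import Mathlib
import Pool.Agent.H99.Bd.Lin

/-!
# Two coprime binary forms whose values have small cross ratios have values with small ratios
-/

set_option autoImplicit false

namespace Pool.Agent.H99.Bd

open Finset Matrix Polynomial

/-- `y / z` has height at most `Z` -/
def Sm (Z : ℕ) (y z : ℤ) : Prop :=
  ∃ c d : ℤ, c ≠ 0 ∧ d ≠ 0 ∧ |c| ≤ (Z : ℤ) ∧ |d| ≤ (Z : ℤ) ∧ c * y = d * z

theorem Sm.mono {Z Z' : ℕ} (h : Z ≤ Z') {y z : ℤ} (hs : Sm Z y z) : Sm Z' y z := by
  obtain ⟨c, d, h1, h2, h3, h4, h5⟩ := hs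
  have hz : (Z : ℤ) ≤ Z' := by exact_mod_cast h
  exact ⟨c, d, h1, h2, h3.trans hz, h4.trans hz, h5⟩

/-- the bound of `key` -/
def kb (d Z H : ℕ) : ℕ :=
  ((d + d).factorial * (H ^ (d + d)) ^ (d + d)) * Z *
    ((d + d) * ((d + d).factorial * (Z * H ^ d) ^ (d + d)) * (Z * H ^ d))

theorem key {d : ℕ} (hd : 1 ≤ d) {P : Fin (d + d + 1) → ℤ × ℤ} (hP : Dist P) {H Z : ℕ}
    (hH : 1 ≤ H) (hZ : 1 ≤ Z) (hPH : ∀ i, |(P i).1| ≤ (H : ℤ) ∧ |(P i).2| ≤ (H : ℤ))
    {f g : ℤ[X]} (hf : f.natDegree ≤ d) (hg : g.natDegree ≤ d)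
    (hcop : ∀ A B : ℤ[X], A.degree < d → B.degree < d → A * f + B * g = 0 → A = 0 ∧ B = 0)
    (hf0 : ∀ k, hv (d + 1) f (P k) ≠ 0) (hg0 : ∀ k, hv (d + 1) g (P k) ≠ 0)
    (hnear : ∀ k, Sm Z (hv (d + 1) f (P k) * hv (d + 1) g (P 0))
      (hv (d + 1) g (P k) * hv (d + 1) f (P 0)))
    (k : Fin (d + d + 1)) : Sm (kb d Z H) (hv (d + 1) f (P k)) (hv (d + 1) f (P 0)) := by
  classical
  have hkbZ : 1 ≤ kb d Z H := by
    unfold kb
    have h1 : 1 ≤ (d + d).factorial := Nat.succ_le_of_lt (Nat.factorial_pos _)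
    have h2 : 1 ≤ (H ^ (d + d)) ^ (d + d) := Nat.one_le_pow _ _ (Nat.pow_pos hH)
    have h3 : 1 ≤ Z * H ^ d := Nat.mul_pos hZ (Nat.pow_pos hH)
    have h4 : 1 ≤ (Z * H ^ d) ^ (d + d) := Nat.one_le_pow _ _ h3
    have h5 : 1 ≤ d + d := by omega
    exact Nat.mul_pos (Nat.mul_pos (Nat.mul_pos h1 h2) hZ)
      (Nat.mul_pos (Nat.mul_pos h5 (Nat.mul_pos h1 h4)) h3)
  obtain ⟨v, hv'⟩ : ∃ v : Fin (d + d + 1) → ℤ, v = fun k => hv (d + 1) f (P k) := ⟨_, rfl⟩
  obtain ⟨v', hvv⟩ : ∃ v' : Fin (d + d + 1) → ℤ, v' = fun k => hv (d + 1) g (P k) := ⟨_, rfl⟩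
  have hvk : ∀ k, hv (d + 1) f (P k) = v k := fun k => by rw [hv']
  have hvk' : ∀ k, hv (d + 1) g (P k) = v' k := fun k => by rw [hvv]
  simp only [hvk, hvk'] at hf0 hg0 hnear ⊢
  choose s t hs ht hsZ htZ hst using hnear
  obtain ⟨w, hw0, hwb, hw⟩ := exists_rel hP hH hPH
  -- the products of monomials with `f` and `g`
  have hmon : ∀ (h : ℤ[X]), h.natDegree ≤ d → ∀ (j : Fin d) (k : Fin (d + d + 1)),
      hv (d + d) (X ^ j.1 * h) (P k) = vm d P k j * hv (d + 1) h (P k) := by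
    intro h hh j k
    obtain ⟨e, rfl⟩ : ∃ e, d = e + 1 := ⟨d - 1, by omega⟩
    have h1 := hv_mul e (e + 1) (X ^ j.1) h (by
      rw [natDegree_X_pow]
      have := j.2
      omega) hh (P k)
    have h2 : e + (e + 1) + 1 = e + 1 + (e + 1) := by omega
    rw [h2] at h1
    rw [h1]
    congr 1
    rw [X_pow_eq_monomial, hv_monomial e j.1 (by have := j.2; omega), one_mul]
    unfold vm
    rw [Matrix.of_apply, Fin.val_rev]
    congr 2
    have := j.2
    omega
  have hwf : ∀ j : Fin d, ∑ k, w k * (vm d P k j * v k) = 0 := by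
    intro j
    rw [← hw (X ^ j.1 * f)]
    refine sum_congr rfl fun k _ => ?_
    rw [hmon f hf, hvk]
  have hwg : ∀ j : Fin d, ∑ k, w k * (vm d P k j * v' k) = 0 := by
    intro j
    rw [← hw (X ^ j.1 * g)]
    refine sum_congr rfl fun k _ => ?_
    rw [hmon g hg, hvk']
  -- the linear system
  obtain ⟨T, hT⟩ : ∃ T : ℤ, T = ∏ k, t k := ⟨_, rfl⟩
  have hT0 : T ≠ 0 := by
    rw [hT]
    exact prod_ne_zero_iff.2 fun k _ => ht k
  obtain ⟨y, hy⟩ : ∃ y : Fin (d + d + 1) → ℤ, y = fun k => w k * v k * ∏ l ∈ univ.erase k, t l :=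
    ⟨_, rfl⟩
  have hyt : ∀ k, y k * t k = T * (w k * v k) := by
    intro k
    rw [hy, hT, ← Finset.mul_prod_erase univ t (mem_univ k)]
    ring
  have hys : ∀ k, v' 0 * (s k * y k) = T * v 0 * (w k * v' k) := by
    intro k
    have h1 : t k * (v' 0 * (s k * y k)) = t k * (T * v 0 * (w k * v' k)) := by
      calc t k * (v' 0 * (s k * y k)) = v' 0 * s k * (y k * t k) := by ring
        _ = T * w k * (s k * (v k * v' 0)) := by rw [hyt]; ring
        _ = _ := by rw [hst]; ring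
    exact mul_left_cancel₀ (ht k) h1
  obtain ⟨Θ, hΘ⟩ : ∃ Θ : Matrix (Fin (d + d)) (Fin (d + d + 1)) ℤ, Θ = Matrix.of fun i k =>
    Fin.addCases (fun j => t k * vm d P k j) (fun j => s k * vm d P k j) i := ⟨_, rfl⟩
  have hΘl : ∀ (j : Fin d) k, Θ (Fin.castAdd d j) k = t k * vm d P k j := by
    intro j k
    rw [hΘ, Matrix.of_apply, Fin.addCases_left]
  have hΘr : ∀ (j : Fin d) k, Θ (Fin.natAdd d j) k = s k * vm d P k j := by
    intro j k
    rw [hΘ, Matrix.of_apply, Fin.addCases_right]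
  have hΘy : ∀ i, ∑ k, Θ i k * y k = 0 := by
    intro i
    refine Fin.addCases (fun j => ?_) (fun j => ?_) i
    · have h1 : ∑ k, Θ (Fin.castAdd d j) k * y k = T * ∑ k, w k * (vm d P k j * v k) := by
        rw [Finset.mul_sum]
        refine sum_congr rfl fun k _ => ?_
        rw [hΘl]
        calc t k * vm d P k j * y k = vm d P k j * (y k * t k) := by ring
          _ = _ := by rw [hyt]; ring
      rw [h1, hwf, mul_zero]
    · have h1 : v' 0 * ∑ k, Θ (Fin.natAdd d j) k * y k =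
          T * v 0 * ∑ k, w k * (vm d P k j * v' k) := by
        rw [Finset.mul_sum, Finset.mul_sum]
        refine sum_congr rfl fun k _ => ?_
        rw [hΘr]
        calc v' 0 * (s k * vm d P k j * y k) = vm d P k j * (v' 0 * (s k * y k)) := by ring
          _ = _ := by rw [hys]; ring
      rw [hwg, mul_zero] at h1
      exact (mul_eq_zero.1 h1).resolve_left (hg0 0)
  obtain ⟨B, hB⟩ : ∃ B : Matrix (Fin (d + d)) (Fin (d + d)) ℤ, B = Matrix.of fun i k =>
    Θ i k.succ := ⟨_, rfl⟩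
  obtain ⟨c, hc⟩ : ∃ c : Fin (d + d) → ℤ, c = fun i => Θ i 0 := ⟨_, rfl⟩
  have hsys : B *ᵥ (fun k => y k.succ) = (-(y 0)) • c := by
    funext i
    rw [Matrix.mulVec, dotProduct, Pi.smul_apply, smul_eq_mul, hB, hc]
    have h1 := hΘy i
    rw [Fin.sum_univ_succ] at h1
    simp only [Matrix.of_apply]
    linarith
  -- the determinant
  have hdet : B.det ≠ 0 := by
    intro h0
    obtain ⟨α, hα0, hα⟩ := Matrix.exists_vecMul_eq_zero_iff.2 h0
    apply hα0
    obtain ⟨A1, hA1⟩ : ∃ A1 : ℤ[X], A1 = ∑ j : Fin d, C (α (Fin.castAdd d j)) * X ^ j.1 := ⟨_, rfl⟩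
    obtain ⟨B1, hB1⟩ : ∃ B1 : ℤ[X], B1 = ∑ j : Fin d, C (α (Fin.natAdd d j)) * X ^ j.1 := ⟨_, rfl⟩
    have hdegs : ∀ β : Fin d → ℤ, (∑ j : Fin d, C (β j) * X ^ j.1 : ℤ[X]).degree < d := by
      intro β
      refine (degree_sum_le _ _).trans_lt ?_
      rw [Finset.sup_lt_iff (by exact_mod_cast WithBot.bot_lt_coe d)]
      intro j _
      exact (degree_C_mul_X_pow_le _ _).trans_lt (by exact_mod_cast j.2)
    have hprodA : ∀ (β : Fin d → ℤ) (h : ℤ[X]) (hh : h.natDegree ≤ d) (k : Fin (d + d + 1)),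
        hv (d + d) ((∑ j : Fin d, C (β j) * X ^ j.1) * h) (P k) =
          (∑ j : Fin d, β j * vm d P k j) * hv (d + 1) h (P k) := by
      intro β h hh k
      rw [Finset.sum_mul, hv_sum, Finset.sum_mul]
      refine sum_congr rfl fun j _ => ?_
      rw [mul_assoc, hv_C_mul, hmon h hh]
      ring
    have hcomb : ∀ k : Fin (d + d), t k.succ * (∑ j : Fin d, α (Fin.castAdd d j) *
        vm d P k.succ j) + s k.succ * (∑ j : Fin d, α (Fin.natAdd d j) * vm d P k.succ j) = 0 := by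
      intro k
      have h1 := congrFun hα k
      rw [Matrix.vecMul, dotProduct, Pi.zero_apply, Fin.sum_univ_add] at h1
      rw [← h1, hB, Finset.mul_sum, Finset.mul_sum]
      congr 1
      · refine sum_congr rfl fun j _ => ?_
        rw [Matrix.of_apply, hΘl]
        ring
      · refine sum_congr rfl fun j _ => ?_
        rw [Matrix.of_apply, hΘr]
        ring
    have hzero : C (v' 0) * A1 * f + C (v 0) * B1 * g = 0 := by
      apply eq_zero_of_hv (n := d + d) (P := fun k => P k.succ) (hP.comp (Fin.succ_injective _))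
      · have e1 : ∀ (a : ℤ) (A h : ℤ[X]), A.degree < d → h.natDegree ≤ d →
            (C a * A * h).degree < ((d + d : ℕ) : WithBot ℕ) := by
          intro a A h hA hh
          by_cases hA0 : A = 0
          · rw [hA0, mul_zero, zero_mul, degree_zero]
            exact WithBot.bot_lt_coe _
          · have h2 : (C a * A * h).natDegree < d + d := by
              refine natDegree_mul_le.trans_lt ?_
              have h3 : (C a * A).natDegree ≤ A.natDegree := natDegree_C_mul_le _ _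
              have h4 : A.natDegree < d := (natDegree_lt_iff_degree_lt hA0).2 hA
              omega
            exact (degree_le_natDegree).trans_lt (by exact_mod_cast h2)
        refine (degree_add_le _ _).trans_lt (max_lt (e1 _ _ _ ?_ hf) (e1 _ _ _ ?_ hg))
        · rw [hA1]; exact hdegs _
        · rw [hB1]; exact hdegs _
      · intro k
        rw [hv_add, mul_assoc, mul_assoc, hv_C_mul, hv_C_mul, hA1, hB1,
          hprodA (fun j => α (Fin.castAdd d j)) f hf, hprodA (fun j => α (Fin.natAdd d j)) g hg,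
          hvk, hvk']
        apply mul_left_cancel₀ (ht k.succ)
        rw [mul_zero]
        calc t k.succ * (v' 0 * ((∑ j : Fin d, α (Fin.castAdd d j) * vm d P k.succ j) *
              v k.succ) + v 0 * ((∑ j : Fin d, α (Fin.natAdd d j) * vm d P k.succ j) *
              v' k.succ)) = v' 0 * v k.succ * (t k.succ * (∑ j : Fin d, α (Fin.castAdd d j) *
              vm d P k.succ j)) + (∑ j : Fin d, α (Fin.natAdd d j) * vm d P k.succ j) *
              (t k.succ * (v' k.succ * v 0)) := by ring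
          _ = v' 0 * v k.succ * (t k.succ * (∑ j : Fin d, α (Fin.castAdd d j) *
              vm d P k.succ j) + s k.succ * (∑ j : Fin d, α (Fin.natAdd d j) *
              vm d P k.succ j)) := by rw [← hst]; ring
          _ = 0 := by rw [hcomb, mul_zero]
    have h1 := hcop (C (v' 0) * A1) (C (v 0) * B1)
      (by
        by_cases hA0 : A1 = 0
        · rw [hA0, mul_zero, degree_zero]; exact WithBot.bot_lt_coe _
        · refine lt_of_le_of_lt ?_ (by rw [hA1]; exact hdegs _ : A1.degree < d)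
          rw [degree_C_mul (hg0 0)])
      (by
        refine lt_of_le_of_lt ?_ (by rw [hB1]; exact hdegs _ : B1.degree < d)
        rw [degree_C_mul (hf0 0)]) hzero
    have hA0 : A1 = 0 := (mul_eq_zero.1 h1.1).resolve_left fun h => hg0 0 (C_eq_zero.1 h)
    have hB0 : B1 = 0 := (mul_eq_zero.1 h1.2).resolve_left fun h => hf0 0 (C_eq_zero.1 h)
    have hcoef : ∀ (β : Fin d → ℤ) (j : Fin d), (∑ j : Fin d, C (β j) * X ^ j.1 : ℤ[X]).coeff j.1
        = β j := by
      intro β j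
      rw [finsetSum_coeff, Finset.sum_eq_single j]
      · rw [coeff_C_mul_X_pow, if_pos rfl]
      · intro b _ hb
        rw [coeff_C_mul_X_pow, if_neg (fun h => hb (Fin.ext h.symm))]
      · intro h
        exact absurd (mem_univ j) h
    funext i
    refine Fin.addCases (fun j => ?_) (fun j => ?_) i
    · rw [← hcoef (fun j => α (Fin.castAdd d j)) j, ← hA1, hA0, coeff_zero, Pi.zero_apply]
    · rw [← hcoef (fun j => α (Fin.natAdd d j)) j, ← hB1, hB0, coeff_zero, Pi.zero_apply]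
  obtain ⟨τ, hτ⟩ : ∃ τ : Fin (d + d) → ℤ, τ = B.adjugate *ᵥ c := ⟨_, rfl⟩
  have hcr : ∀ k : Fin (d + d), B.det * y k.succ = -(y 0 * τ k) := by
    intro k
    have h1 : B.adjugate *ᵥ (B *ᵥ fun k => y k.succ) = B.det • fun k => y k.succ := by
      rw [Matrix.mulVec_mulVec, Matrix.adjugate_mul, Matrix.smul_mulVec, Matrix.one_mulVec]
    rw [hsys, Matrix.mulVec_smul, ← hτ] at h1
    have h2 := congrFun h1 k
    simp only [Pi.smul_apply, smul_eq_mul] at h2
    linarith
  -- the bounds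
  have hZz : (1 : ℤ) ≤ Z := by exact_mod_cast hZ
  have hent : ∀ i k, |Θ i k| ≤ ((Z * H ^ d : ℕ) : ℤ) := by
    intro i k
    have h1 : ∀ (a : ℤ) (j : Fin d), |a| ≤ Z → |a * vm d P k j| ≤ ((Z * H ^ d : ℕ) : ℤ) := by
      intro a j ha
      rw [abs_mul]
      push_cast
      have := vm_bd (n := d) hH hPH k j
      push_cast at this
      exact mul_le_mul ha this (abs_nonneg _) (by positivity)
    refine Fin.addCases (fun j => ?_) (fun j => ?_) i
    · rw [hΘl]; exact h1 _ _ (htZ k)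
    · rw [hΘr]; exact h1 _ _ (hsZ k)
  have hZH : 1 ≤ Z * H ^ d := Nat.mul_pos hZ (Nat.pow_pos hH)
  obtain ⟨D, hD⟩ : ∃ D : ℕ, D = (d + d).factorial * (Z * H ^ d) ^ (d + d) := ⟨_, rfl⟩
  obtain ⟨U, hU⟩ : ∃ U : ℕ, U = (d + d).factorial * (H ^ (d + d)) ^ (d + d) := ⟨_, rfl⟩
  have hBd : |B.det| ≤ (D : ℤ) := by
    rw [hD, hB]
    exact det_bd _ fun i k => hent _ _
  have hτb : ∀ k, |τ k| ≤ (((d + d) * D * (Z * H ^ d) : ℕ) : ℤ) := by
    intro k
    rw [hτ, Matrix.mulVec, dotProduct]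
    calc |∑ j, B.adjugate k j * c j| ≤ ∑ j, |B.adjugate k j * c j| := abs_sum_le_sum_abs _ _
      _ ≤ ∑ _j : Fin (d + d), (D : ℤ) * ((Z * H ^ d : ℕ) : ℤ) := by
          refine sum_le_sum fun j _ => ?_
          rw [abs_mul]
          refine mul_le_mul ?_ ?_ (abs_nonneg _) (by positivity)
          · rw [hD, hB]
            exact adj_bd _ hZH (fun i k => hent _ _) _ _
          · rw [hc]
            exact hent _ _
      _ = _ := by
          rw [sum_const, card_univ, Fintype.card_fin, nsmul_eq_mul]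
          push_cast
          ring
  have hkb : ((kb d Z H : ℕ) : ℤ) = (U : ℤ) * Z * (((d + d) * D * (Z * H ^ d) : ℕ) : ℤ) := by
    unfold kb
    rw [← hD, ← hU]
    push_cast
    ring
  have hD1 : (D : ℤ) ≤ (((d + d) * D * (Z * H ^ d) : ℕ) : ℤ) := by
    have h1 : D ≤ (d + d) * D * (Z * H ^ d) := by
      calc D = 1 * D * 1 := by ring
        _ ≤ (d + d) * D * (Z * H ^ d) := by
          refine Nat.mul_le_mul (Nat.mul_le_mul (by omega) le_rfl) hZH
    exact_mod_cast h1
  have hwb' : ∀ i, |w i| ≤ (U : ℤ) := by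
    intro i
    rw [hU]
    exact hwb i
  rcases Fin.eq_zero_or_eq_succ k with rfl | ⟨k, rfl⟩
  · refine ⟨1, 1, one_ne_zero, one_ne_zero, ?_, ?_, rfl⟩
    all_goals
      rw [abs_one]
      exact_mod_cast hkbZ
  · have h1 : w k.succ * t 0 * B.det * v k.succ = -(w 0 * t k.succ * τ k) * v 0 := by
      apply mul_left_cancel₀ hT0
      calc T * (w k.succ * t 0 * B.det * v k.succ) = (T * (w k.succ * v k.succ)) * t 0 * B.det := by
            ring
        _ = t k.succ * t 0 * (B.det * y k.succ) := by rw [← hyt]; ring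
        _ = -(t k.succ * τ k * (y 0 * t 0)) := by rw [hcr]; ring
        _ = _ := by rw [hyt]; ring
    have hτ0 : τ k ≠ 0 := by
      intro h
      rw [h, mul_zero, neg_zero, zero_mul] at h1
      exact mul_ne_zero (mul_ne_zero (mul_ne_zero (hw0 _) (ht 0)) hdet) (hf0 _) h1
    refine ⟨_, _, mul_ne_zero (mul_ne_zero (hw0 _) (ht 0)) hdet,
      neg_ne_zero.2 (mul_ne_zero (mul_ne_zero (hw0 0) (ht _)) hτ0), ?_, ?_, h1⟩
    · rw [hkb, abs_mul, abs_mul]
      exact mul_le_mul (mul_le_mul (hwb' _) (htZ 0) (abs_nonneg _) (by positivity))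
        (hBd.trans hD1) (abs_nonneg _) (by positivity)
    · rw [hkb, abs_neg, abs_mul, abs_mul]
      exact mul_le_mul (mul_le_mul (hwb' _) (htZ _) (abs_nonneg _) (by positivity))
        (hτb k) (abs_nonneg _) (by positivity)

end Pool.Agent.H99.Bd
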