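import Mathlib
import Pool.Agent.H99.Bd.Key

/-!
# A primitive binary form whose values have small ratios is small
-/

set_option autoImplicit false

namespace Pool.Agent.H99.Bd

open Finset Matrix Polynomial

/-- the bound of `height_bd` -/
def hb (d Z H : ℕ) : ℕ :=
  (Z ^ (d + 1) * ((d + 1).factorial * (H ^ (d + 1)) ^ (d + 1))) *
    ((d + 1) * ((d + 1).factorial * (H ^ (d + 1)) ^ (d + 1)) * Z ^ (d + 1))

theorem height_bd {d : ℕ} {P : Fin (d + 1) → ℤ × ℤ} (hP : Dist P) {H Z : ℕ}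
    (hH : 1 ≤ H) (hPH : ∀ i, |(P i).1| ≤ (H : ℤ) ∧ |(P i).2| ≤ (H : ℤ))
    {f : ℤ[X]} (hf : f.natDegree ≤ d) (hprim : f.IsPrimitive) {v0 : ℤ} (hs : ∀ k, Sm Z (hv (d + 1) f (P k)) v0) (j : ℕ) : |f.coeff j| ≤ ((hb d Z H : ℕ) : ℤ) := by
  classical
  choose c e hc he hcZ heZ hce using hs
  obtain ⟨R, hR⟩ : ∃ R : ℤ, R = ∏ k, c k := ⟨_, rfl⟩
  have hR0 : R ≠ 0 := by
    rw [hR]
    exact prod_ne_zero_iff.2 fun j _ => hc j
  have hprod : ∀ s : Finset (Fin (d + 1)), |∏ j ∈ s, c j| ≤ (Z : ℤ) ^ s.card := by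
    intro s
    rw [Finset.abs_prod]
    exact (prod_le_prod (fun _ _ => abs_nonneg _) fun j _ => hcZ j).trans (by rw [prod_const])
  have hRb : |R| ≤ (Z : ℤ) ^ (d + 1) := by
    rw [hR]
    have := hprod univ
    rwa [card_univ, Fintype.card_fin] at this
  obtain ⟨b, hb'⟩ : ∃ b : Fin (d + 1) → ℤ, b = fun k => (∏ l ∈ univ.erase k, c l) * e k :=
    ⟨_, rfl⟩
  have hRv : ∀ k, R * hv (d + 1) f (P k) = b k * v0 := by
    intro k
    rw [hR, hb', ← Finset.mul_prod_erase univ c (mem_univ k)]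
    simp only
    calc c k * (∏ l ∈ univ.erase k, c l) * hv (d + 1) f (P k) =
        (∏ l ∈ univ.erase k, c l) * (c k * hv (d + 1) f (P k)) := by ring
      _ = _ := by rw [hce]; ring
  have hbb : ∀ k, |b k| ≤ (Z : ℤ) ^ (d + 1) := by
    intro k
    rw [hb']
    simp only
    rw [abs_mul]
    have hcard : (univ.erase k : Finset (Fin (d + 1))).card = d := by
      rw [card_erase_of_mem (mem_univ k), card_univ, Fintype.card_fin]
      omega
    calc |∏ l ∈ univ.erase k, c l| * |e k| ≤ (Z : ℤ) ^ (univ.erase k).card * Z :=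
          mul_le_mul (hprod _) (heZ k) (abs_nonneg _) (by positivity)
      _ = (Z : ℤ) ^ (d + 1) := by rw [hcard, ← pow_succ]
  obtain ⟨V, hV⟩ : ∃ V : Matrix (Fin (d + 1)) (Fin (d + 1)) ℤ, V = vm (d + 1) P := ⟨_, rfl⟩
  have hVdet : V.det ≠ 0 := by
    rw [hV]
    exact vm_det hP
  obtain ⟨D, hD⟩ : ∃ D : ℕ, D = (d + 1).factorial * (H ^ (d + 1)) ^ (d + 1) := ⟨_, rfl⟩
  have hVb : |V.det| ≤ (D : ℤ) := by
    rw [hV, hD]
    exact det_bd _ fun i k => vm_bd hH hPH _ _
  have hadj : ∀ i k, |V.adjugate i k| ≤ (D : ℤ) := by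
    intro i k
    rw [hV, hD]
    exact adj_bd _ (Nat.pow_pos hH) (fun i k => vm_bd hH hPH _ _) _ _
  obtain ⟨n, hn⟩ : ∃ n : Fin (d + 1) → ℤ, n = fun j => ∑ k, V.adjugate j k * b k := ⟨_, rfl⟩
  have hcoef : ∀ i : Fin (d + 1), R * V.det * f.coeff i.1 = v0 * n i := by
    intro i
    have h1 : V.adjugate *ᵥ (V *ᵥ fun j : Fin (d + 1) => f.coeff j.1) =
        V.det • fun j : Fin (d + 1) => f.coeff j.1 := by
      rw [Matrix.mulVec_mulVec, Matrix.adjugate_mul, Matrix.smul_mulVec, Matrix.one_mulVec]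
    have h2 := congrFun h1 i
    rw [Pi.smul_apply, smul_eq_mul, Matrix.mulVec, dotProduct] at h2
    calc R * V.det * f.coeff i.1 = R * (V.det * f.coeff i.1) := by ring
      _ = ∑ k, V.adjugate i k * (R * hv (d + 1) f (P k)) := by
          rw [← h2, Finset.mul_sum]
          refine sum_congr rfl fun k _ => ?_
          rw [hV, vm_mulVec]
          ring
      _ = v0 * n i := by
          rw [hn, Finset.mul_sum]
          refine sum_congr rfl fun k _ => ?_
          rw [hRv]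
          ring
  have hnb : ∀ i, |n i| ≤ (((d + 1) * D * Z ^ (d + 1) : ℕ) : ℤ) := by
    intro i
    rw [hn]
    calc |∑ k, V.adjugate i k * b k| ≤ ∑ k, |V.adjugate i k * b k| := abs_sum_le_sum_abs _ _
      _ ≤ ∑ _k : Fin (d + 1), (D : ℤ) * (Z : ℤ) ^ (d + 1) := by
          refine sum_le_sum fun k _ => ?_
          rw [abs_mul]
          exact mul_le_mul (hadj _ _) (hbb _) (abs_nonneg _) (by positivity)
      _ = _ := by
          rw [sum_const, card_univ, Fintype.card_fin, nsmul_eq_mul]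
          push_cast
          ring
  -- `v0` divides `R det V`
  have hdvd : v0 ∣ R * V.det := by
    have h1 : C v0 ∣ C (R * V.det) * f := by
      rw [C_dvd_iff_dvd_coeff]
      intro i
      rw [coeff_C_mul]
      by_cases hi : i < d + 1
      · rw [hcoef ⟨i, hi⟩]
        exact dvd_mul_right _ _
      · rw [coeff_eq_zero_of_natDegree_lt (by omega), mul_zero]
        exact dvd_zero _
    rw [← dvd_content_iff_C_dvd, content_C_mul, hprim.content_eq_one, mul_one] at h1
    exact h1.trans (normalize_associated _).dvd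
  have hRV0 : R * V.det ≠ 0 := mul_ne_zero hR0 hVdet
  have hv0b : |v0| ≤ ((Z ^ (d + 1) * D : ℕ) : ℤ) := by
    have h1 : |v0| ≤ |R * V.det| := by
      rw [← abs_dvd_abs] at hdvd
      exact Int.le_of_dvd (abs_pos.2 hRV0) hdvd
    refine h1.trans ?_
    rw [abs_mul]
    push_cast
    exact mul_le_mul hRb hVb (abs_nonneg _) (by positivity)
  have hkb : ((hb d Z H : ℕ) : ℤ) = ((Z ^ (d + 1) * D : ℕ) : ℤ) *
      (((d + 1) * D * Z ^ (d + 1) : ℕ) : ℤ) := by
    unfold hb
    rw [← hD]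
    push_cast
    ring
  by_cases hj : j < d + 1
  · have h1 : |f.coeff j| ≤ |R * V.det * f.coeff j| := by
      rw [abs_mul]
      have : 1 ≤ |R * V.det| := Int.one_le_abs hRV0
      nlinarith [abs_nonneg (f.coeff j)]
    rw [hcoef ⟨j, hj⟩, abs_mul] at h1
    refine h1.trans ?_
    rw [hkb]
    exact mul_le_mul hv0b (hnb _) (abs_nonneg _) (by positivity)
  · rw [coeff_eq_zero_of_natDegree_lt (by omega), abs_zero]
    positivity

/-- integral polynomials which are irreducible, of the same degree and not associated are coprime -/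
theorem cop_of_irreducible {d : ℕ} {f g : ℤ[X]} (hf : Irreducible f) (hg : Irreducible g)
    (hgd : g.natDegree = d) (h1 : f ≠ g) (h2 : f ≠ -g)
    (A B : ℤ[X]) (hA : A.degree < d) (h : A * f + B * g = 0) :
    A = 0 ∧ B = 0 := by
  have hgp : Prime g := hg.prime
  have h3 : g ∣ A * f := by
    rw [eq_neg_of_add_eq_zero_left h]
    exact (dvd_mul_left _ _).neg_right
  have hA0 : A = 0 := by
    rcases hgp.dvd_or_dvd h3 with h4 | h4
    · by_contra hne
      have := Polynomial.natDegree_le_of_dvd h4 hne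
      have h5 : A.natDegree < d := (natDegree_lt_iff_degree_lt hne).2 hA
      omega
    · exfalso
      obtain ⟨c, hc⟩ := h4
      rcases hf.isUnit_or_isUnit hc with h5 | h5
      · exact hg.not_isUnit h5
      · rw [Polynomial.isUnit_iff] at h5
        obtain ⟨r, hr, rfl⟩ := h5
        rcases Int.isUnit_iff.1 hr with rfl | rfl
        · rw [C_1, mul_one] at hc
          exact h1 hc
        · rw [C_neg, C_1, mul_neg, mul_one] at hc
          exact h2 hc
  refine ⟨hA0, ?_⟩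
  rw [hA0, zero_mul, zero_add] at h
  exact (mul_eq_zero.1 h).resolve_right hg.ne_zero

/-- the final bound for the coefficients -/
def fb (d Z H : ℕ) : ℕ := hb d (kb d Z H) H

theorem uniq {d : ℕ} (hd : 1 ≤ d) {P : Fin (d + d + 1) → ℤ × ℤ} (hP : Dist P) {H Z : ℕ}
    (hH : 1 ≤ H) (hZ : 1 ≤ Z) (hPH : ∀ i, |(P i).1| ≤ (H : ℤ) ∧ |(P i).2| ≤ (H : ℤ))
    {f g : ℤ[X]} (hf : Irreducible f) (hg : Irreducible g)
    (hfd : f.natDegree = d) (hgd : g.natDegree = d)
    (hf0 : ∀ k, hv (d + 1) f (P k) ≠ 0) (hg0 : ∀ k, hv (d + 1) g (P k) ≠ 0)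
    (hnear : ∀ k, Sm Z (hv (d + 1) f (P k) * hv (d + 1) g (P 0))
      (hv (d + 1) g (P k) * hv (d + 1) f (P 0)))
    {j : ℕ} (hbig : ((fb d Z H : ℕ) : ℤ) < |f.coeff j|) : f = g ∨ f = -g := by
  by_contra hcon
  push Not at hcon
  have h1 := key hd hP hH hZ hPH hfd.le hgd.le
    (fun A B hA _ h => cop_of_irreducible hf hg hgd hcon.1 hcon.2 A B hA h) hf0 hg0 hnear
  have hle : d + 1 ≤ d + d + 1 := by omega
  have h2 := height_bd (d := d) (P := fun k : Fin (d + 1) => P (Fin.castLE hle k))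
    (hP.comp (Fin.castLE_injective _)) hH (fun i => hPH _) hfd.le
    (hf.isPrimitive (by omega)) (fun k => h1 _) j
  unfold fb at hbig
  linarith

end Pool.Agent.H99.Bd
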