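import Mathlib
import Pool.Graph.R_pool_sql_team_seeded_64922ed1.X286.Vn.Circ
import Pool.Agent.H99.Bd.Hgt

/-!
# Nets for the minimal vanishing sums, connectedness
-/

set_option autoImplicit false

namespace Pool.Agent.H99.Bd

open Finset Pool.Agent.Y902.GN Pool.Agent.X286.Vn

/-- the sum of the `u i * v i` over `B` is zero, no proper subsum is zero -/
def MinVan {q : ℕ} (u : Fin q → ℤ) (B : Finset (Fin q)) (v : Fin q → ℤ) : Prop :=
  ∑ i ∈ B, u i * v i = 0 ∧ ∀ K ⊆ B, K.Nonempty → K ≠ B → ∑ i ∈ K, u i * v i ≠ 0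

/-- the vectors are near to each other on `B` -/
def NearB {q : ℕ} (C Y : ℕ) (B : Finset (Fin q)) (v w : Fin q → ℤ) : Prop :=
  ∀ i ∈ B, ∀ j ∈ B, Sm ((Y + 2) ^ C) (v i * w j) (w i * v j)

theorem net1 (n N E : ℕ) (ε : ℝ) (hε : 0 < ε) : ∃ (C : ℕ) (δ : ℝ), 0 < δ ∧ ∀ Y : ℕ, 1 ≤ Y →
    ∀ (u : Fin n → ℤ), (∀ i, u i ≠ 0 ∧ ((|u i| : ℤ) : ℝ) ≤ Real.exp ((Y : ℝ) ^ δ)) →
      ∀ (q : ℕ) (e : Fin n → Fin q), ∃ T : Finset (Fin q → ℤ), (T.card : ℝ) ≤ (Y : ℝ) ^ ε ∧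
        (∀ w ∈ T, ∀ i, w i ≠ 0) ∧
        ∀ v : Fin q → ℤ, (∀ i, v i ≠ 0) → GqPt n N E δ Y u (fun i => v (e i)) →
          ∃ w ∈ T, NearP C Y (fun i => v (e i)) (fun i => w (e i)) := by
  classical
  obtain ⟨C, δ, hδ, H⟩ := gq n N E ε hε
  refine ⟨C, δ, hδ, fun Y hY u hu q e => ?_⟩
  obtain ⟨T, hTc, hTP, hTR⟩ := exists_net
    (fun v : Fin q → ℤ => (∀ i, v i ≠ 0) ∧ GqPt n N E δ Y u (fun i => v (e i)))
    (fun v w => NearP C Y (fun i => v (e i)) (fun i => w (e i)))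
    (fun v => near_refl _) (fun v w h => near_symm h) ⌊(Y : ℝ) ^ ε⌋₊ (by
      intro T hT1 hT2
      apply Nat.le_floor
      have hinj : Set.InjOn (fun (v : Fin q → ℤ) (i : Fin n) => v (e i))
          (T : Set (Fin q → ℤ)) := by
        intro x hx y hy hxy
        by_contra hne
        apply hT2 x hx y hy hne
        have h1 : (fun i => x (e i)) = fun i => y (e i) := hxy
        rw [h1]
        exact near_refl _
      rw [← card_image_of_injOn hinj]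
      refine H Y hY u hu _ (fun y hy => ?_) (fun y hy z hz hyz => ?_)
      · obtain ⟨x, hx, rfl⟩ := mem_image.1 hy
        exact (hT1 x hx).2
      · obtain ⟨x, hx, rfl⟩ := mem_image.1 hy
        obtain ⟨x', hx', rfl⟩ := mem_image.1 hz
        exact hT2 x hx x' hx' (fun h => hyz (by rw [h])))
  refine ⟨T, ?_, fun w hw => (hTP w hw).1, fun v hv1 hv2 => hTR v ⟨hv1, hv2⟩⟩
  refine le_trans ?_ (Nat.floor_le (by positivity : (0 : ℝ) ≤ (Y : ℝ) ^ ε))
  exact_mod_cast hTc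

theorem net (q N E : ℕ) (ε : ℝ) (hε : 0 < ε) : ∃ (C : ℕ) (δ : ℝ), 0 < δ ∧ ∀ Y : ℕ, 1 ≤ Y →
    ∀ (B : Finset (Fin q)) (u : Fin q → ℤ),
      (∀ i ∈ B, u i ≠ 0 ∧ ((|u i| : ℤ) : ℝ) ≤ Real.exp ((Y : ℝ) ^ δ)) →
      ∃ T : Finset (Fin q → ℤ), (T.card : ℝ) ≤ (Y : ℝ) ^ ε ∧ (∀ w ∈ T, ∀ i, w i ≠ 0) ∧
        ∀ v : Fin q → ℤ, (∀ i, v i ≠ 0) → MinVan u B v →
          (∀ i, ((|v i| : ℤ) : ℝ) ≤ Real.exp ((Y : ℝ) ^ δ)) → Rep N E Y v →
          ∃ w ∈ T, NearB C Y B v w := by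
  classical
  have hall := fun n : Fin (q + 1) => net1 n.1 N E ε hε
  choose C1 δ1 hδ1 H using hall
  obtain ⟨C, hC⟩ : ∃ C : ℕ, ∀ n, C1 n ≤ C := ⟨∑ n, C1 n, fun n =>
    Finset.single_le_sum (f := C1) (fun _ _ => Nat.zero_le _) (mem_univ n)⟩
  obtain ⟨δ, hδ, hδn⟩ : ∃ δ : ℝ, 0 < δ ∧ ∀ n, δ ≤ δ1 n := by
    refine ⟨univ.inf' univ_nonempty δ1, ?_, fun A => Finset.inf'_le _ (mem_univ A)⟩
    rw [Finset.lt_inf'_iff]
    exact fun A _ => hδ1 A
  refine ⟨C, δ, hδ, fun Y hY B u hu => ?_⟩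
  have hYr : (1 : ℝ) ≤ (Y : ℝ) := by exact_mod_cast hY
  have hmono : ∀ n, Real.exp ((Y : ℝ) ^ δ) ≤ Real.exp ((Y : ℝ) ^ δ1 n) := fun n =>
    Real.exp_le_exp.2 (Real.rpow_le_rpow_of_exponent_le hYr (hδn n))
  have hBq : B.card < q + 1 := by
    have := card_le_univ B
    rw [Fintype.card_fin] at this
    omega
  obtain ⟨e, he⟩ : ∃ e : Fin B.card ≃ B, e = B.equivFin.symm := ⟨_, rfl⟩
  obtain ⟨T, hT1, hT2, hT3⟩ := H ⟨B.card, hBq⟩ Y hY (fun i => u (e i)) (fun i =>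
    ⟨(hu _ (e i).2).1, (hu _ (e i).2).2.trans (hmono _)⟩) q (fun i => e i)
  refine ⟨T, hT1, hT2, fun v hv1 hv2 hv3 hv4 => ?_⟩
  have hGq : GqPt B.card N E (δ1 ⟨B.card, hBq⟩) Y (fun i => u (e i)) (fun i => v (e i)) := by
    refine ⟨fun i => hv1 _, ?_, fun K hK1 hK2 => ?_, fun i => (hv3 _).trans (hmono _), ?_⟩
    · rw [← hv2.1, ← Finset.sum_coe_sort B (fun i => u i * v i)]
      exact Equiv.sum_comp e (fun i : B => u i * v i)
    · have h1 := hv2.2 (K.map ⟨fun i => (e i : Fin q), fun i j h => e.injective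
        (Subtype.ext h)⟩) (by
          intro i hi
          obtain ⟨j, -, rfl⟩ := mem_map.1 hi
          exact (e j).2) (hK1.map) (by
          intro h
          have h2 := congrArg Finset.card h
          rw [card_map] at h2
          apply hK2
          rw [← Finset.card_eq_iff_eq_univ, Fintype.card_fin]
          exact h2)
      rw [sum_map] at h1
      exact h1
    · obtain ⟨s, b, f, g1, g2, g3⟩ := hv4
      exact ⟨fun i => s (e i), b, fun i => f (e i), g1, fun i => g2 _, fun i => g3 _⟩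
  obtain ⟨w, hw1, hw2⟩ := hT3 v hv1 hGq
  refine ⟨w, hw1, fun i hi j hj => ?_⟩
  obtain ⟨r, r', h1, h2, h3, h4, h5⟩ := hw2 (e.symm ⟨i, hi⟩) (e.symm ⟨j, hj⟩)
  simp only [Equiv.apply_symm_apply] at h5
  have hle : ((Y : ℤ) + 2) ^ C1 ⟨B.card, hBq⟩ ≤ (((Y + 2) ^ C : ℕ) : ℤ) := by
    push_cast
    exact pow_le_pow_right₀ (by omega) (hC _)
  exact ⟨r, r', h1, h2, h3.trans hle, h4.trans hle, h5⟩

theorem Sm.near {Z : ℕ} {v v' w : Fin 2 → ℤ} (hw : ∀ i, w i ≠ 0)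
    (h1 : Sm Z (v 0 * w 1) (w 0 * v 1)) (h2 : Sm Z (v' 0 * w 1) (w 0 * v' 1)) :
    Sm (Z * Z) (v 0 * v' 1) (v' 0 * v 1) := by
  obtain ⟨c, e, a1, a2, a3, a4, a5⟩ := h1
  obtain ⟨c', e', b1, b2, b3, b4, b5⟩ := h2
  refine ⟨c * e', e * c', mul_ne_zero a1 b2, mul_ne_zero a2 b1, ?_, ?_, ?_⟩
  · rw [abs_mul]
    push_cast
    exact mul_le_mul a3 b4 (abs_nonneg _) (by positivity)
  · rw [abs_mul]
    push_cast
    exact mul_le_mul a4 b3 (abs_nonneg _) (by positivity)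
  · apply mul_left_cancel₀ (mul_ne_zero (hw 0) (hw 1))
    calc w 0 * w 1 * (c * e' * (v 0 * v' 1)) = (c * (v 0 * w 1)) * (e' * (w 0 * v' 1)) := by ring
      _ = (e * (w 0 * v 1)) * (c' * (v' 0 * w 1)) := by rw [a5, b5]
      _ = _ := by ring

theorem Sm.step {Z Z' : ℕ} {a a' b b' c c' : ℤ} (hb : b ≠ 0) (hb' : b' ≠ 0)
    (h1 : Sm Z (a * b') (a' * b)) (h2 : Sm Z' (b * c') (b' * c)) :
    Sm (Z * Z') (a * c') (a' * c) := by
  obtain ⟨x, y, a1, a2, a3, a4, a5⟩ := h1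
  obtain ⟨x', y', b1, b2, b3, b4, b5⟩ := h2
  refine ⟨x * x', y * y', mul_ne_zero a1 b1, mul_ne_zero a2 b2, ?_, ?_, ?_⟩
  · rw [abs_mul]
    push_cast
    exact mul_le_mul a3 b3 (abs_nonneg _) (by positivity)
  · rw [abs_mul]
    push_cast
    exact mul_le_mul a4 b4 (abs_nonneg _) (by positivity)
  · apply mul_left_cancel₀ (mul_ne_zero hb hb')
    calc b * b' * (x * x' * (a * c')) = (x * (a * b')) * (x' * (b * c')) := by ring
      _ = (y * (a' * b)) * (y' * (b' * c)) := by rw [a5, b5]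
      _ = _ := by ring

/-- the minimal vanishing subsum containing a given index -/
theorem exists_block {q : ℕ} {u v : Fin q → ℤ} {I : Finset (Fin q)}
    (hu : ∀ i ∈ I, u i ≠ 0) (hv : ∀ i, v i ≠ 0) (h : ∑ i ∈ I, u i * v i = 0) {i : Fin q}
    (hi : i ∈ I) : ∃ B ⊆ I, MinVan u B v ∧ i ∈ B ∧ ∃ j ∈ B, j ≠ i := by
  classical
  obtain ⟨B, hB, hmin⟩ := Finset.exists_min_image (I.powerset.filter fun B => i ∈ B ∧
    ∑ i ∈ B, u i * v i = 0) Finset.card ⟨I, by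
      rw [mem_filter, mem_powerset]
      exact ⟨subset_rfl, hi, h⟩⟩
  rw [mem_filter, mem_powerset] at hB
  obtain ⟨hBI, hiB, hB0⟩ := hB
  refine ⟨B, hBI, ⟨hB0, fun K hKB hK1 hK2 hK3 => ?_⟩, hiB, ?_⟩
  · by_cases hiK : i ∈ K
    · have h1 := hmin K (by
        rw [mem_filter, mem_powerset]
        exact ⟨hKB.trans hBI, hiK, hK3⟩)
      have h2 := card_lt_card (ssubset_of_subset_of_ne hKB hK2)
      omega
    · have h1 := hmin (B \ K) (by
        rw [mem_filter, mem_powerset]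
        refine ⟨sdiff_subset.trans hBI, mem_sdiff.2 ⟨hiB, hiK⟩, ?_⟩
        have h2 := Finset.sum_sdiff (f := fun i => u i * v i) hKB
        rw [hK3, add_zero, hB0] at h2
        exact h2)
      have h2 := card_sdiff_of_subset hKB
      have h3 := hK1.card_pos
      have h4 := card_le_card hKB
      omega
  · by_contra hcon
    push Not at hcon
    have h1 : B = {i} := by
      ext j
      rw [mem_singleton]
      exact ⟨hcon j, fun h => h ▸ hiB⟩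
    rw [h1, sum_singleton] at hB0
    exact mul_ne_zero (hu i hi) (hv i) hB0

/-- a block crosses each cut -/
theorem cut {d q : ℕ} (hq : 2 * d + 1 ≤ q) {u : Finset (Fin q) → Fin q → ℤ} {v : Fin q → ℤ}
    (hu : ∀ I, I.card = d + 2 → ∀ i ∈ I, u I i ≠ 0) (hv : ∀ i, v i ≠ 0)
    (hrel : ∀ I, I.card = d + 2 → ∑ i ∈ I, u I i * v i = 0) (A : Finset (Fin q))
    (hA : A.Nonempty) (hA' : Aᶜ.Nonempty) : ∃ I B, I.card = d + 2 ∧ B ⊆ I ∧ MinVan (u I) B v ∧
      ∃ i ∈ A, ∃ j ∉ A, i ∈ B ∧ j ∈ B := by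
  classical
  obtain ⟨i, hi⟩ := hA
  obtain ⟨j, hj⟩ := hA'
  have hcard : A.card + Aᶜ.card = q := by
    rw [card_add_card_compl, Fintype.card_fin]
  rcases le_or_gt (d + 1) Aᶜ.card with h1 | h1
  · obtain ⟨J, hJ1, hJ2⟩ := Finset.exists_subset_card_eq h1
    have hiJ : i ∉ J := fun h => (mem_compl.1 (hJ1 h)) hi
    have hI : (insert i J).card = d + 2 := by
      rw [card_insert_of_notMem hiJ, hJ2]
    obtain ⟨B, hB1, hB2, hB3, k, hk1, hk2⟩ := exists_block (hu _ hI) hv (hrel _ hI)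
      (mem_insert_self i J)
    refine ⟨_, B, hI, hB1, hB2, i, hi, k, ?_, hB3, hk1⟩
    exact mem_compl.1 (hJ1 ((mem_insert.1 (hB1 hk1)).resolve_left hk2))
  · have h2 : d + 1 ≤ A.card := by omega
    obtain ⟨J, hJ1, hJ2⟩ := Finset.exists_subset_card_eq h2
    have hjJ : j ∉ J := fun h => (mem_compl.1 hj) (hJ1 h)
    have hI : (insert j J).card = d + 2 := by
      rw [card_insert_of_notMem hjJ, hJ2]
    obtain ⟨B, hB1, hB2, hB3, k, hk1, hk2⟩ := exists_block (hu _ hI) hv (hrel _ hI)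
      (mem_insert_self j J)
    refine ⟨_, B, hI, hB1, hB2, k, ?_, j, mem_compl.1 hj, hk1, hB3⟩
    exact hJ1 ((mem_insert.1 (hB1 hk1)).resolve_left hk2)

/-- growing sets -/
theorem grow {q : ℕ} (R : ℕ → Fin q → Prop) (i0 : Fin q) (h0 : R 0 i0)
    (hmono : ∀ t j, R t j → R (t + 1) j)
    (hstep : ∀ t (A : Finset (Fin q)), A.Nonempty → Aᶜ.Nonempty → (∀ j ∈ A, R t j) →
      ∃ j ∉ A, R (t + 1) j) : ∀ j, R q j := by
  classical
  have h1 : ∀ t, ∃ A : Finset (Fin q), A.Nonempty ∧ (∀ j ∈ A, R t j) ∧ (t + 1 ≤ A.card ∨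
      A = univ) := by
    intro t
    induction t with
    | zero => exact ⟨{i0}, ⟨i0, mem_singleton_self _⟩, fun j hj => by
        rw [mem_singleton.1 hj]; exact h0, Or.inl (by rw [card_singleton])⟩
    | succ t ih =>
      obtain ⟨A, hA1, hA2, hA3⟩ := ih
      by_cases hA : A = univ
      · exact ⟨A, hA1, fun j hj => hmono t j (hA2 j hj), Or.inr hA⟩
      · obtain ⟨j, hj1, hj2⟩ := hstep t A hA1 (by
          rw [Finset.nonempty_iff_ne_empty, Ne, Finset.compl_eq_empty_iff]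
          exact hA) hA2
        refine ⟨insert j A, insert_nonempty _ _, fun k hk => ?_, Or.inl ?_⟩
        · rcases mem_insert.1 hk with rfl | hk
          · exact hj2
          · exact hmono t k (hA2 k hk)
        · rw [card_insert_of_notMem hj1]
          have := hA3.resolve_right hA
          omega
  intro j
  obtain ⟨A, -, hA2, hA3⟩ := h1 q
  have hA : A = univ := by
    rcases hA3 with h | h
    · exfalso
      have := card_le_univ A
      rw [Fintype.card_fin] at this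
      omega
    · exact h
  exact hA2 j (hA ▸ mem_univ j)

end Pool.Agent.H99.Bd
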