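import Mathlib
import Pool.Agent.H99.Bd.Net

/-!
# Few irreducible binary forms of large height with values of few prime factors
-/

set_option autoImplicit false

namespace Pool.Agent.H99.Bd

open Finset Polynomial Pool.Agent.Y902.GN Pool.Agent.X286.Vn

theorem le_mul {W x y a b : ℕ} (hx : x ≤ W ^ a) (hy : y ≤ W ^ b) : x * y ≤ W ^ (a + b) := by
  rw [pow_add]
  exact Nat.mul_le_mul hx hy

theorem le_pow {W x a : ℕ} (n : ℕ) (hx : x ≤ W ^ a) : x ^ n ≤ W ^ (a * n) := by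
  rw [pow_mul]
  exact Nat.pow_le_pow_left hx n

theorem le_const {W : ℕ} (hW : 2 ≤ W) (c : ℕ) : c ≤ W ^ c :=
  (Nat.lt_pow_self (by omega)).le

theorem fb_le (d a : ℕ) : ∃ b : ℕ, ∀ W Z H : ℕ, 2 ≤ W → Z ≤ W ^ a → H ≤ W ^ 1 →
    fb d Z H ≤ W ^ b := by
  have hk : ∃ b : ℕ, ∀ W Z H : ℕ, 2 ≤ W → Z ≤ W ^ a → H ≤ W ^ 1 → kb d Z H ≤ W ^ b :=
    ⟨_, fun W Z H hW hZ hH =>
      le_mul (le_mul (le_mul (le_const hW _) (le_pow _ (le_pow _ hH))) hZ)
      (le_mul (le_mul (le_const hW _) (le_mul (le_const hW _)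
        (le_pow _ (le_mul hZ (le_pow _ hH))))) (le_mul hZ (le_pow _ hH)))⟩
  obtain ⟨b, hb'⟩ := hk
  exact ⟨_, fun W Z H hW hZ hH =>
    le_mul (le_mul (le_pow _ (hb' W Z H hW hZ hH))
      (le_mul (le_const hW _) (le_pow _ (le_pow _ hH))))
    (le_mul (le_mul (le_const hW _) (le_mul (le_const hW _) (le_pow _ (le_pow _ hH))))
      (le_pow _ (hb' W Z H hW hZ hH)))⟩

/-- the forms which are counted -/
structure Cand (d q N E : ℕ) (δ : ℝ) (κ Y H : ℕ) (P : Fin q → ℤ × ℤ) (f : ℤ[X]) : Prop where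
  irr : Irreducible f
  deg : f.natDegree = d
  nz : ∀ i, hv (d + 1) f (P i) ≠ 0
  hi : ∀ i, ((|hv (d + 1) f (P i)| : ℤ) : ℝ) ≤ Real.exp ((Y : ℝ) ^ δ)
  rep : Rep N E Y (fun i => hv (d + 1) f (P i))
  big : ∃ j, ((((Y + 2) * H) ^ κ : ℕ) : ℤ) < |f.coeff j|

theorem main (d q N E : ℕ) (hd : 1 ≤ d) (hq : 2 * d + 1 ≤ q) (ε : ℝ) (hε : 0 < ε) :
    ∃ (κ : ℕ) (δ K : ℝ), 0 < δ ∧ 0 < K ∧ ∀ Y : ℕ, 1 ≤ Y → ∀ H : ℕ, 1 ≤ H →
      (H : ℝ) ≤ Real.exp ((Y : ℝ) ^ δ) → ∀ P : Fin q → ℤ × ℤ, Dist P →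
      (∀ i, |(P i).1| ≤ (H : ℤ) ∧ |(P i).2| ≤ (H : ℤ)) → ∀ 𝓕 : Finset ℤ[X],
      (∀ f ∈ 𝓕, Cand d q N E δ κ Y H P f) → (∀ f ∈ 𝓕, ∀ g ∈ 𝓕, f ≠ g → f ≠ -g) →
      (𝓕.card : ℝ) ≤ K * (Y : ℝ) ^ ε := by
  classical
  obtain ⟨ε', hε'⟩ : ∃ ε' : ℝ, ε' = ε / 4 ^ q := ⟨_, rfl⟩
  have hε'0 : 0 < ε' := by rw [hε']; positivity
  obtain ⟨C, δ, hδ, HN⟩ := net q N E ε' hε'0
  obtain ⟨F, hF⟩ : ∃ F : ℕ, F = (d + 1).factorial + (d + 1) * (d + 1) := ⟨_, rfl⟩
  -- the factor for the bound of the coefficients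
  obtain ⟨c, hc1, hc⟩ : ∃ c : ℕ, 1 ≤ c ∧ (F : ℝ) ≤ (c : ℝ) ^ δ := by
    have h1 : Filter.Tendsto (fun c : ℕ => (c : ℝ) ^ δ) Filter.atTop Filter.atTop :=
      (tendsto_rpow_atTop hδ).comp tendsto_natCast_atTop_atTop
    obtain ⟨c, h2, h3⟩ := ((h1.eventually_ge_atTop (F : ℝ)).and
      (Filter.eventually_ge_atTop 1)).exists
    exact ⟨c, h3, h2⟩
  obtain ⟨κ, hκ⟩ := fb_le d ((1 + c) * C * 2 * q)
  refine ⟨κ, δ, 2 ^ (4 ^ q) * (c : ℝ) ^ ε, hδ, by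
    have : (0 : ℝ) < c := by exact_mod_cast hc1
    positivity, fun Y hY H hH hHe P hP hPH 𝓕 h𝓕 hpm => ?_⟩
  have hYr : (1 : ℝ) ≤ (Y : ℝ) := by exact_mod_cast hY
  have hc1r : (1 : ℝ) ≤ (c : ℝ) := by exact_mod_cast hc1
  obtain ⟨Y', hY'⟩ : ∃ Y' : ℕ, Y' = c * Y := ⟨_, rfl⟩
  have hYY' : Y ≤ Y' := by rw [hY']; exact Nat.le_mul_of_pos_left _ hc1
  have hY'1 : 1 ≤ Y' := hY.trans hYY'
  have hY'r : (1 : ℝ) ≤ (Y' : ℝ) := by exact_mod_cast hY'1
  have hexp : Real.exp ((Y : ℝ) ^ δ) ≤ Real.exp ((Y' : ℝ) ^ δ) :=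
    Real.exp_le_exp.2 (Real.rpow_le_rpow (Nat.cast_nonneg _) (by exact_mod_cast hYY') hδ.le)
  -- the bound of the coefficients
  have hUb : (((d + 1).factorial * (H ^ (d + 1)) ^ (d + 1) : ℕ) : ℝ) ≤
      Real.exp ((Y' : ℝ) ^ δ) := by
    have h1 : (((d + 1).factorial : ℕ) : ℝ) ≤ Real.exp ((d + 1).factorial : ℝ) := by
      have := Real.add_one_le_exp ((d + 1).factorial : ℝ)
      linarith
    have h2 : ((H : ℝ) ^ (d + 1)) ^ (d + 1) ≤ Real.exp (((d + 1) * (d + 1) : ℕ) * (Y : ℝ) ^ δ) := by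
      rw [← pow_mul, Real.exp_nat_mul]
      exact pow_le_pow_left₀ (Nat.cast_nonneg _) hHe _
    push_cast at h2 ⊢
    refine (mul_le_mul h1 h2 (by positivity) (Real.exp_pos _).le).trans ?_
    rw [← Real.exp_add]
    apply Real.exp_le_exp.2
    have h3 : (1 : ℝ) ≤ (Y : ℝ) ^ δ := Real.one_le_rpow hYr hδ.le
    have h4 : (F : ℝ) * (Y : ℝ) ^ δ ≤ (Y' : ℝ) ^ δ := by
      rw [hY', Nat.cast_mul, Real.mul_rpow (Nat.cast_nonneg _) (Nat.cast_nonneg _)]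
      exact mul_le_mul_of_nonneg_right hc (by positivity)
    rw [hF] at h4
    push_cast at h4
    have h5 : (0 : ℝ) ≤ ((d + 1).factorial : ℝ) := Nat.cast_nonneg _
    nlinarith
  -- the relations
  have hrelI : ∀ I : Finset (Fin q), I.card = d + 2 → ∃ u : Fin q → ℤ, (∀ i ∈ I, u i ≠ 0) ∧
      (∀ i ∈ I, ((|u i| : ℤ) : ℝ) ≤ Real.exp ((Y' : ℝ) ^ δ)) ∧
      ∀ f : ℤ[X], ∑ i ∈ I, u i * hv (d + 1) f (P i) = 0 := by
    intro I hI
    obtain ⟨e, he⟩ : ∃ e : Fin (d + 1 + 1) ≃ I, e = (I.equivFinOfCardEq hI).symm := ⟨_, rfl⟩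
    obtain ⟨u, hu1, hu2, hu3⟩ := exists_rel (n := d + 1) (P := fun k => P (e k))
      (hP.comp (fun a b h => e.injective (Subtype.ext h))) hH (fun k => hPH _)
    refine ⟨fun i => if h : i ∈ I then u (e.symm ⟨i, h⟩) else 0, fun i hi => ?_, fun i hi => ?_,
      fun f => ?_⟩
    · simp only [dif_pos hi]
      exact hu1 _
    · simp only [dif_pos hi]
      refine le_trans ?_ hUb
      exact_mod_cast hu2 _
    · refine Eq.trans ?_ (hu3 f)
      rw [← Finset.sum_coe_sort I, ← Equiv.sum_comp e]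
      refine sum_congr rfl fun k _ => ?_
      simp only [dif_pos (e k).2]
      congr 2
      exact e.symm_apply_apply k
  obtain ⟨u, hu1, hu2, hu3⟩ : ∃ u : Finset (Fin q) → Fin q → ℤ,
      (∀ I, I.card = d + 2 → ∀ i ∈ I, u I i ≠ 0) ∧
      (∀ I, I.card = d + 2 → ∀ i ∈ I, ((|u I i| : ℤ) : ℝ) ≤ Real.exp ((Y' : ℝ) ^ δ)) ∧
      ∀ I, I.card = d + 2 → ∀ f : ℤ[X], ∑ i ∈ I, u I i * hv (d + 1) f (P i) = 0 := by
    choose! u h1 h2 h3 using hrelI
    exact ⟨u, h1, h2, h3⟩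
  -- the nets
  have hnets : ∀ p : Finset (Fin q) × Finset (Fin q), ∃ T : Finset (Fin q → ℤ),
      (T.card : ℝ) ≤ (Y' : ℝ) ^ ε' ∧ (∀ w ∈ T, ∀ i, w i ≠ 0) ∧
      (p.1.card = d + 2 → p.2 ⊆ p.1 → ∀ v : Fin q → ℤ, (∀ i, v i ≠ 0) → MinVan (u p.1) p.2 v →
          (∀ i, ((|v i| : ℤ) : ℝ) ≤ Real.exp ((Y' : ℝ) ^ δ)) → Rep N E Y' v →
          ∃ w ∈ T, NearB C Y' p.2 v w) := by
    intro p
    by_cases hp : p.1.card = d + 2 ∧ p.2 ⊆ p.1
    · obtain ⟨T, h1, h2, h3⟩ := HN Y' hY'1 p.2 (u p.1) (fun i hi =>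
        ⟨hu1 _ hp.1 i (hp.2 hi), hu2 _ hp.1 i (hp.2 hi)⟩)
      exact ⟨T, h1, h2, fun _ _ => h3⟩
    · refine ⟨∅, by simp only [card_empty, Nat.cast_zero]; positivity, by simp, fun h1 h2 => ?_⟩
      exact absurd ⟨h1, h2⟩ hp
  choose T hT1 hT2 hT3 using hnets
  -- the values
  obtain ⟨v, hv'⟩ : ∃ v : ℤ[X] → Fin q → ℤ, v = fun f i => hv (d + 1) f (P i) := ⟨_, rfl⟩
  have hrep : ∀ f ∈ 𝓕, Rep N E Y' (v f) := by
    intro f hf
    obtain ⟨s, b, e, h1, h2, h3⟩ := (h𝓕 f hf).rep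
    rw [hv']
    refine ⟨s, b, e, fun j => ⟨(h1 j).1, (h1 j).2.trans hYY'⟩, fun i => (h2 i).trans ?_, h3⟩
    exact pow_le_pow_left₀ (Int.natCast_nonneg _) (by exact_mod_cast hYY') _
  have hvnz : ∀ f ∈ 𝓕, ∀ i, v f i ≠ 0 := by
    intro f hf i
    rw [hv']
    exact (h𝓕 f hf).nz i
  have hvhi : ∀ f ∈ 𝓕, ∀ i, ((|v f i| : ℤ) : ℝ) ≤ Real.exp ((Y' : ℝ) ^ δ) := by
    intro f hf i
    rw [hv']
    exact ((h𝓕 f hf).hi i).trans hexp
  have hvrel : ∀ f I, I.card = d + 2 → ∑ i ∈ I, u I i * v f i = 0 := by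
    intro f I hI
    rw [hv']
    exact hu3 I hI f
  -- the data of a form
  have hdata : ∀ f ∈ 𝓕, ∀ p : Finset (Fin q) × Finset (Fin q), ∃ o : Option (Fin q → ℤ),
      o ∈ insertNone (T p) ∧ (p.1.card = d + 2 → p.2 ⊆ p.1 → MinVan (u p.1) p.2 (v f) →
        ∃ w, o = some w ∧ NearB C Y' p.2 (v f) w) ∧
      (∀ w, o = some w → NearB C Y' p.2 (v f) w) := by
    intro f hf p
    by_cases hp : p.1.card = d + 2 ∧ p.2 ⊆ p.1 ∧ MinVan (u p.1) p.2 (v f)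
    · obtain ⟨w, hw1, hw2⟩ := hT3 p hp.1 hp.2.1 (v f) (hvnz f hf) hp.2.2 (hvhi f hf) (hrep f hf)
      refine ⟨some w, some_mem_insertNone.2 hw1, fun _ _ _ => ⟨w, rfl, hw2⟩, fun w' hw' => ?_⟩
      rw [Option.some_inj] at hw'
      exact hw' ▸ hw2
    · refine ⟨none, none_mem_insertNone, fun h1 h2 h3 => absurd ⟨h1, h2, h3⟩ hp, fun w hw => ?_⟩
      exact absurd hw (by simp)
  choose! Φ hΦ1 hΦ2 hΦ3 using hdata
  have hcard : 𝓕.card ≤ (Fintype.piFinset fun p => insertNone (T p)).card := by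
    apply card_le_card_of_injOn Φ
    · intro f hf
      rw [mem_coe, Fintype.mem_piFinset]
      exact hΦ1 f hf
    · intro f hf g hg hfg
      by_contra hne
      rw [mem_coe] at hf hg
      have hnf := hvnz f hf
      have hng := hvnz g hg
      obtain ⟨z, hz⟩ : ∃ z : ℕ, z = (Y' + 2) ^ C * (Y' + 2) ^ C := ⟨_, rfl⟩
      have hz1 : 1 ≤ z := by
        rw [hz]
        exact Nat.mul_pos (Nat.pow_pos (by omega)) (Nat.pow_pos (by omega))
      have hle : d + d + 1 ≤ q := by omega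
      obtain ⟨i0, hi0⟩ : ∃ i0 : Fin q, i0 = Fin.castLE hle 0 := ⟨_, rfl⟩
      have hall : ∀ j, Sm (z ^ q) (v f j * v g i0) (v g j * v f i0) := by
        apply grow (fun t j => Sm (z ^ t) (v f j * v g i0) (v g j * v f i0)) i0
        · refine ⟨1, 1, one_ne_zero, one_ne_zero, ?_, ?_, by ring⟩ <;> simp
        · intro t j h
          exact h.mono (Nat.pow_le_pow_right hz1 (Nat.le_succ t))
        · intro t A hA hA' hAt
          obtain ⟨I, B, hI, hBI, hmv, i, hiA, j, hjA, hiB, hjB⟩ := cut hq hu1 hnf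
            (hvrel f) A hA hA'
          refine ⟨j, hjA, ?_⟩
          obtain ⟨w, hw1, hw2⟩ := hΦ2 f hf (I, B) hI hBI hmv
          have hw3 := hΦ3 g hg (I, B) w (by rw [← hfg]; exact hw1)
          have hw0 : ∀ i, w i ≠ 0 := by
            have h1 := hΦ1 f hf (I, B)
            rw [hw1, some_mem_insertNone] at h1
            exact hT2 _ w h1
          have h2 := hw2 j hjB i hiB
          have h3 := hw3 j hjB i hiB
          have h4 : Sm z (v f j * v g i) (v g j * v f i) := by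
            rw [hz]
            exact Sm.near (v := ![v f j, v f i]) (v' := ![v g j, v g i]) (w := ![w j, w i])
              (fun k => by
                refine Fin.cases (hw0 _) (fun k => ?_) k
                refine Fin.cases (hw0 _) (fun k => k.elim0) k) h2 h3
          have h5 := Sm.step (hnf i) (hng i) h4 (hAt i hiA)
          rw [pow_succ, mul_comm]
          exact h5
      obtain ⟨j, hj⟩ := (h𝓕 f hf).big
      have hZ1 : 1 ≤ z ^ q := Nat.one_le_pow _ _ hz1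
      have hW : 2 ≤ (Y + 2) * H := by
        calc 2 = 2 * 1 := rfl
          _ ≤ (Y + 2) * H := Nat.mul_le_mul (by omega) hH
      have hzW : z ^ q ≤ ((Y + 2) * H) ^ ((1 + c) * C * 2 * q) := by
        have h1 : Y' + 2 ≤ (Y + 2) ^ (1 + c) := by
          have h2 : c ≤ (Y + 2) ^ c := (Nat.lt_pow_self (by omega : 1 < Y + 2)).le
          calc Y' + 2 = c * Y + 2 := by rw [hY']
            _ ≤ c * Y + c * 2 := by omega
            _ = (Y + 2) * c := by ring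
            _ ≤ (Y + 2) * (Y + 2) ^ c := Nat.mul_le_mul_left _ h2
            _ = (Y + 2) ^ (1 + c) := by rw [pow_add, pow_one]
        have h2 : z ≤ (Y + 2) ^ ((1 + c) * C * 2) := by
          rw [hz, ← pow_add, pow_mul, pow_mul]
          calc (Y' + 2) ^ (C + C) ≤ ((Y + 2) ^ (1 + c)) ^ (C + C) := Nat.pow_le_pow_left h1 _
            _ = (((Y + 2) ^ (1 + c)) ^ C) ^ 2 := by
                rw [← pow_mul ((Y + 2) ^ (1 + c)) C 2, mul_two]
        calc z ^ q ≤ ((Y + 2) ^ ((1 + c) * C * 2)) ^ q := Nat.pow_le_pow_left h2 _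
          _ = (Y + 2) ^ ((1 + c) * C * 2 * q) := by rw [← pow_mul]
          _ ≤ _ := Nat.pow_le_pow_left (Nat.le_mul_of_pos_right _ hH) _
      have hfb := hκ ((Y + 2) * H) (z ^ q) H hW hzW (by
        rw [pow_one]
        exact Nat.le_mul_of_pos_left _ (by omega))
      have h6 := uniq hd (P := fun k => P (Fin.castLE hle k)) (hP.comp (Fin.castLE_injective _))
        hH hZ1 (fun k => hPH _) (h𝓕 f hf).irr (h𝓕 g hg).irr (h𝓕 f hf).deg (h𝓕 g hg).deg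
        (fun k => (h𝓕 f hf).nz _) (fun k => (h𝓕 g hg).nz _) (fun k => by
          have := hall (Fin.castLE hle k)
          rw [hi0, hv'] at this
          exact this) (j := j) (by
          refine lt_of_le_of_lt ?_ hj
          exact_mod_cast hfb)
      rcases h6 with h6 | h6
      · exact hne h6
      · exact hpm f hf g hg hne h6
  have hcard2 : ((Fintype.piFinset fun p => insertNone (T p)).card : ℝ) ≤
      2 ^ (4 ^ q) * (c : ℝ) ^ ε * (Y : ℝ) ^ ε := by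
    rw [Fintype.card_piFinset]
    push_cast
    have h1 : ∀ p : Finset (Fin q) × Finset (Fin q), ((insertNone (T p)).card : ℝ) ≤
        2 * (Y' : ℝ) ^ ε' := by
      intro p
      rw [card_insertNone]
      push_cast
      have h2 : (1 : ℝ) ≤ (Y' : ℝ) ^ ε' := Real.one_le_rpow hY'r hε'0.le
      have h3 := hT1 p
      linarith
    refine (prod_le_prod (fun p _ => Nat.cast_nonneg _) fun p _ => h1 p).trans (le_of_eq ?_)
    rw [prod_const, card_univ, Fintype.card_prod, Fintype.card_finset, Fintype.card_fin, mul_pow]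
    have h4 : 2 ^ q * 2 ^ q = 4 ^ q := by
      rw [← mul_pow]
      norm_num
    rw [h4, ← Real.rpow_natCast ((Y' : ℝ) ^ ε'), ← Real.rpow_mul (by positivity), hε']
    have h5 : ε / 4 ^ q * ((4 ^ q : ℕ) : ℝ) = ε := by
      push_cast
      field_simp
    rw [h5, hY', Nat.cast_mul, Real.mul_rpow (Nat.cast_nonneg _) (Nat.cast_nonneg _)]
    ring
  refine le_trans ?_ hcard2
  exact_mod_cast hcard

end Pool.Agent.H99.Bd
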