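import Mathlib
import Pool.Agent.H99.Bd.Lin

/-!
# The primes which divide a value of the norm form lie below primes of intersection
-/

set_option autoImplicit false

namespace Pool.Agent.H99.Bd

open Finset Polynomial IsDedekindDomain NumberField

/-- a positive degree is automatic -/
theorem natDegree_pos_of_root {K : Type*} [Field K] [CharZero K] {f : ℤ[X]} (hf : Irreducible f)
    {x : K} (hx : aeval x f = 0) : 0 < f.natDegree := by
  by_contra hcon
  have h0 : f.natDegree = 0 := by omega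
  rw [Polynomial.natDegree_eq_zero] at h0
  obtain ⟨c, rfl⟩ := h0
  rw [aeval_C] at hx
  have hc : c = 0 := by
    have : ((c : ℤ) : K) = 0 := by simpa using hx
    exact_mod_cast this
  rw [hc, C_0] at hf
  exact hf.ne_zero rfl

theorem dvd_of_root {K : Type*} [Field K] [CharZero K] {f R : ℤ[X]} (hf : Irreducible f) {x : K}
    (hx : aeval x f = 0) (hR : aeval x R = 0) : f ∣ R := by
  by_cases hR0 : R = 0
  · rw [hR0]
    exact dvd_zero _
  have hpos := natDegree_pos_of_root hf hx
  have hprim : f.IsPrimitive := hf.isPrimitive (by omega)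
  have hfq : Irreducible (f.map (Int.castRingHom ℚ)) :=
    (IsPrimitive.Int.irreducible_iff_irreducible_map_cast hprim).1 hf
  have hRc : R.content ≠ 0 := by
    rw [Ne, content_eq_zero_iff]
    exact hR0
  have hRp : aeval x R.primPart = 0 := by
    have h1 : aeval x (C R.content * R.primPart) = 0 := by
      rw [← R.eq_C_content_mul_primPart]
      exact hR
    rw [map_mul, aeval_C] at h1
    refine (mul_eq_zero.1 h1).resolve_left ?_
    have : ((R.content : ℤ) : K) ≠ 0 := by exact_mod_cast hRc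
    simpa using this
  have hmap : ∀ g : ℤ[X], aeval x (g.map (Int.castRingHom ℚ)) = aeval x g := by
    intro g
    exact aeval_map_algebraMap ℚ x g
  have h2 : f ∣ R.primPart := by
    rw [IsPrimitive.Int.dvd_iff_map_cast_dvd_map_cast f R.primPart hprim]
    by_contra hnd
    have hco := (hfq.coprime_iff_not_dvd).2 hnd
    obtain ⟨a, b, hab⟩ := hco
    have h3 := congrArg (aeval x) hab
    rw [map_add, map_mul, map_mul, hmap, hmap, hx, hRp, mul_zero, mul_zero, add_zero, map_one] at h3
    exact zero_ne_one h3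
  rw [R.eq_C_content_mul_primPart]
  exact Dvd.dvd.mul_left h2 _

theorem hv_lin (c e a b : ℤ) : hv (1 + 1) (C c * X + C e : ℤ[X]) (a, b) = c * a + e * b := by
  have h0 : (C c * X + C e : ℤ[X]).coeff 0 = e := by
    rw [coeff_add, coeff_C_mul, coeff_X_zero, coeff_C_zero, mul_zero, zero_add]
  have h1 : (C c * X + C e : ℤ[X]).coeff 1 = c := by
    rw [coeff_add, coeff_C_mul, coeff_X_one, coeff_C_succ, mul_one, add_zero]
  rw [hv_range, Finset.sum_range_succ, Finset.sum_range_succ, Finset.sum_range_zero, h0, h1]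
  simp only [pow_zero, pow_one, Nat.sub_self, Nat.sub_zero, zero_add, one_mul, mul_one]
  ring

/-- the value divides a power of a denominator -/
theorem val_dvd {K : Type*} [Field K] [CharZero K] {f : ℤ[X]} (hf : Irreducible f) {x : K}
    (hx : aeval x f = 0) {a b c e : ℤ} (h1 : c * a + e * b = 1) (hbx : (b : K) * x - a ≠ 0) {N : ℕ}
    (hN : IsIntegral ℤ ((N : K) * (((c : K) * x + e) / ((b : K) * x - a)))) :
    ∃ k, hv (f.natDegree + 1) f (a, b) ∣ (N : ℤ) ^ k := by
  classical
  obtain ⟨h, hmon, hroot⟩ := hN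
  obtain ⟨k, hk⟩ : ∃ k, k = h.natDegree := ⟨_, rfl⟩
  refine ⟨k, ?_⟩
  obtain ⟨R, hR⟩ : ∃ R : ℤ[X], R = ∑ i ∈ range (k + 1), C (h.coeff i * (N : ℤ) ^ i) *
      ((C c * X + C e) ^ i * (C b * X - C a) ^ (k - i)) := ⟨_, rfl⟩
  have hlin1 : ∀ i, ((C c * X + C e : ℤ[X]) ^ i).natDegree ≤ i := by
    intro i
    refine natDegree_pow_le.trans ?_
    have : (C c * X + C e : ℤ[X]).natDegree ≤ 1 := natDegree_linear_le
    nlinarith
  have hlin2 : ∀ i, ((C b * X - C a : ℤ[X]) ^ i).natDegree ≤ i := by
    intro i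
    refine natDegree_pow_le.trans ?_
    have : (C b * X - C a : ℤ[X]).natDegree ≤ 1 := by
      rw [sub_eq_add_neg, ← C_neg]
      exact natDegree_linear_le
    nlinarith
  have hev1 : ∀ i, hv (i + 1) ((C c * X + C e : ℤ[X]) ^ i) (a, b) = 1 := by
    intro i
    induction i with
    | zero => rw [pow_zero, hv_range]; simp
    | succ i ih =>
      have h2 := hv_mul i 1 ((C c * X + C e : ℤ[X]) ^ i) (C c * X + C e) (hlin1 i)
        natDegree_linear_le (a, b)
      rw [pow_succ, h2, ih, hv_lin, h1, one_mul]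
  have hev2 : ∀ i, hv (i + 1) ((C b * X - C a : ℤ[X]) ^ i) (a, b) = if i = 0 then 1 else 0 := by
    intro i
    induction i with
    | zero => rw [pow_zero, hv_range]; simp
    | succ i ih =>
      have h3 := hlin2 1
      rw [pow_one] at h3
      have h2 := hv_mul i 1 ((C b * X - C a : ℤ[X]) ^ i) (C b * X - C a) (hlin2 i) h3 (a, b)
      rw [pow_succ, h2, if_neg (Nat.succ_ne_zero i)]
      apply mul_eq_zero_of_right
      rw [sub_eq_add_neg, ← C_neg, hv_lin]
      ring
  have hRdeg : R.natDegree ≤ k := by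
    rw [hR]
    refine natDegree_sum_le_of_forall_le _ _ fun i hi => ?_
    rw [mem_range] at hi
    refine (natDegree_C_mul_le _ _).trans (natDegree_mul_le.trans ?_)
    have := hlin1 i
    have := hlin2 (k - i)
    omega
  have hRv : hv (k + 1) R (a, b) = (N : ℤ) ^ k := by
    rw [hR, hv_sum, Finset.sum_eq_single k]
    · rw [hv_C_mul]
      have h2 := hv_mul k (k - k) ((C c * X + C e : ℤ[X]) ^ k) ((C b * X - C a : ℤ[X]) ^ (k - k))
        (hlin1 k) (hlin2 _) (a, b)
      rw [Nat.sub_self, add_zero] at h2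
      rw [Nat.sub_self, h2, hev1, hev2, if_pos rfl, mul_one, mul_one, hk]
      have h3 : h.coeff h.natDegree = 1 := hmon
      rw [h3, one_mul]
    · intro i hi hne
      rw [mem_range] at hi
      rw [hv_C_mul]
      have h2 := hv_mul i (k - i) ((C c * X + C e : ℤ[X]) ^ i) ((C b * X - C a : ℤ[X]) ^ (k - i))
        (hlin1 i) (hlin2 _) (a, b)
      have h3 : i + (k - i) = k := by omega
      rw [h3] at h2
      rw [h2, hev2, if_neg (by omega), mul_zero, mul_zero]
    · intro h2
      exact absurd (mem_range.2 (by omega)) h2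
  have hRx : aeval x R = 0 := by
    have h2 : aeval x R = ((b : K) * x - a) ^ k * eval₂ (algebraMap ℤ K)
        ((N : K) * (((c : K) * x + e) / ((b : K) * x - a))) h := by
      rw [eval₂_eq_sum_range, ← hk, hR, map_sum, Finset.mul_sum]
      refine sum_congr rfl fun i hi => ?_
      rw [mem_range] at hi
      have h3 : k = i + (k - i) := by omega
      have h4 : ((b : K) * x - a) ^ k = ((b : K) * x - a) ^ i * ((b : K) * x - a) ^ (k - i) := by
        rw [← pow_add, ← h3]
      rw [h4]
      simp only [map_mul, map_pow, map_add, map_sub, aeval_X, aeval_C]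
      simp only [algebraMap_int_eq, eq_intCast, mul_pow, div_pow, Int.cast_natCast,
        Int.cast_mul, Int.cast_pow]
      obtain ⟨β, hβ⟩ : ∃ β, β = (b : K) * x - a := ⟨_, rfl⟩
      rw [← hβ] at hbx ⊢
      field_simp
    rw [h2, hroot, mul_zero]
  obtain ⟨g, hg⟩ := dvd_of_root hf hx hRx
  have hR0 : R ≠ 0 ∨ (N : ℤ) ^ k = 0 := by
    by_cases h0 : R = 0
    · right
      rw [← hRv, h0, hv_zero]
    · exact Or.inl h0
  rcases hR0 with hR0 | hR0
  · have hg0 : g ≠ 0 := by
      rintro rfl
      rw [mul_zero] at hg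
      exact hR0 hg
    have hdeg : f.natDegree + g.natDegree = R.natDegree := by
      rw [hg, natDegree_mul hf.ne_zero hg0]
    have h2 := hv_mul f.natDegree (k - f.natDegree) f g le_rfl (by omega) (a, b)
    have h3 : f.natDegree + (k - f.natDegree) = k := by omega
    rw [h3, ← hg, hRv] at h2
    rw [h2]
    exact dvd_mul_right _ _
  · rw [hR0]
    exact dvd_zero _

/-- an element which is integral at all primes above `p` has a denominator prime to `p` -/
theorem exists_den {K : Type*} [Field K] [NumberField K] {p : ℕ} (hp : p.Prime) (γ : K)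
    (h : ∀ v : HeightOneSpectrum (𝓞 K), (p : 𝓞 K) ∈ v.asIdeal → v.valuation K γ ≤ 1) :
    ∃ N : ℕ, ¬ p ∣ N ∧ IsIntegral ℤ ((N : K) * γ) := by
  classical
  by_contra hcon
  push Not at hcon
  obtain ⟨I, hI⟩ : ∃ I : Ideal (𝓞 K), ∀ z, z ∈ I ↔ IsIntegral ℤ ((z : K) * γ) := by
    refine ⟨⟨⟨⟨{z | IsIntegral ℤ ((z : K) * γ)}, ?_⟩, ?_⟩, ?_⟩, fun z => Iff.rfl⟩
    · intro a b ha hb
      have : ((a + b : 𝓞 K) : K) * γ = (a : K) * γ + (b : K) * γ := by
        push_cast
        ring
      rw [Set.mem_ofPred_eq, this]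
      exact IsIntegral.add ha hb
    · rw [Set.mem_ofPred_eq]
      have : ((0 : 𝓞 K) : K) * γ = 0 := by
        push_cast
        ring
      rw [this]
      exact isIntegral_zero
    · intro c a ha
      have : ((c • a : 𝓞 K) : K) * γ = (c : K) * ((a : K) * γ) := by
        rw [smul_eq_mul]
        push_cast
        ring
      show IsIntegral ℤ _
      rw [this]
      exact IsIntegral.mul (RingOfIntegers.isIntegral_coe c) ha
  have hpz : Prime (p : ℤ) := Nat.prime_iff_prime_int.1 hp
  have hspan : (Ideal.span {(p : ℤ)}).IsPrime := by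
    rw [Ideal.span_singleton_prime hpz.ne_zero]
    exact hpz
  have hle : I.comap (algebraMap ℤ (𝓞 K)) ≤ Ideal.span {(p : ℤ)} := by
    intro z hz
    rw [Ideal.mem_comap, hI] at hz
    rw [Ideal.mem_span_singleton, Int.natCast_dvd]
    by_contra hnd
    apply hcon _ hnd
    have h2 : ((algebraMap ℤ (𝓞 K) z : 𝓞 K) : K) = (z : K) := by simp
    rw [h2] at hz
    rcases Int.natAbs_eq z with h3 | h3
    · rw [h3] at hz
      rw [Int.cast_natCast] at hz
      exact hz
    · rw [h3] at hz
      rw [Int.cast_neg, Int.cast_natCast, neg_mul] at hz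
      exact (IsIntegral.neg_iff).1 hz
  obtain ⟨Q, hIQ, hQ, hQc⟩ := Ideal.exists_ideal_over_prime_of_isIntegral (Ideal.span {(p : ℤ)}) I hle
  have hpQ : (p : 𝓞 K) ∈ Q := by
    have : (p : ℤ) ∈ Q.comap (algebraMap ℤ (𝓞 K)) := by
      rw [hQc]
      exact Ideal.mem_span_singleton_self _
    rw [Ideal.mem_comap] at this
    simpa using this
  have hQ0 : Q ≠ ⊥ := by
    rintro rfl
    rw [Ideal.mem_bot] at hpQ
    exact hp.ne_zero (by exact_mod_cast hpQ)
  obtain ⟨n, d, hnd⟩ := (⟨Q, hQ, hQ0⟩ : HeightOneSpectrum (𝓞 K)).exists_primeCompl_mul_eq_of_integer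
    γ (h ⟨Q, hQ, hQ0⟩ hpQ)
  apply d.2
  apply hIQ
  rw [hI, mul_comm]
  have h2 : γ * ((d : 𝓞 K) : K) = (n : K) := hnd
  rw [h2]
  exact RingOfIntegers.isIntegral_coe n

end Pool.Agent.H99.Bd
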