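import Mathlib
import Pool.Agent.H99.Bd.Nf
import Pool.Graph.R_pool_sql_team_39128cda.H.MP_92cab9_nt.E

/-!
# The absolute height and the coefficients of the minimal polynomial
-/

set_option autoImplicit false

namespace Pool.Agent.H99.Bd

open Finset Polynomial NumberField Height IntermediateField

theorem isIntegral_of_root {α : ℂ} {f : ℤ[X]} (hf : Irreducible f) (hα : aeval α f = 0) :
    IsIntegral ℚ α := by
  rw [← isAlgebraic_iff_isIntegral]
  refine ⟨f.map (algebraMap ℤ ℚ), ?_, ?_⟩
  · rw [Ne, Polynomial.map_eq_zero_iff (RingHom.injective_int (algebraMap ℤ ℚ))]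
    exact hf.ne_zero
  · rw [aeval_map_algebraMap]
    exact hα

/-- the primitive polynomial and the minimal polynomial -/
theorem minpoly_eq {K : Type*} [Field K] [CharZero K] {f : ℤ[X]} (hf : Irreducible f) {x : K}
    (hx : aeval x f = 0) : f.map (Int.castRingHom ℚ) *
      C (f.map (Int.castRingHom ℚ)).leadingCoeff⁻¹ = minpoly ℚ x := by
  have hpos := natDegree_pos_of_root hf hx
  have hfq : Irreducible (f.map (Int.castRingHom ℚ)) :=
    (IsPrimitive.Int.irreducible_iff_irreducible_map_cast (hf.isPrimitive (by omega))).1 hf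
  apply minpoly.eq_of_irreducible hfq
  exact (aeval_map_algebraMap ℚ x f).trans hx

theorem natDegree_minpoly {K : Type*} [Field K] [CharZero K] {f : ℤ[X]} (hf : Irreducible f)
    {x : K} (hx : aeval x f = 0) : (minpoly ℚ x).natDegree = f.natDegree := by
  have hlc : (f.map (Int.castRingHom ℚ)).leadingCoeff ≠ 0 := by
    rw [leadingCoeff_ne_zero, Ne, Polynomial.map_eq_zero_iff (RingHom.injective_int _)]
    exact hf.ne_zero
  rw [← minpoly_eq hf hx, natDegree_mul_C (inv_ne_zero hlc),
    natDegree_map_eq_of_injective (RingHom.injective_int _)]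

/-- the leading coefficient divides a power of a denominator -/
theorem leading_dvd {K : Type*} [Field K] [NumberField K] {f : ℤ[X]} (hf : Irreducible f) {x : K}
    (hx : aeval x f = 0) {n : ℕ} (hn : IsIntegral ℤ ((n : K) * x)) :
    f.leadingCoeff ∣ (n : ℤ) ^ (minpoly ℤ ((n : K) * x)).natDegree := by
  obtain ⟨h, hh⟩ : ∃ h, h = minpoly ℤ ((n : K) * x) := ⟨_, rfl⟩
  have hmon : h.Monic := by rw [hh]; exact minpoly.monic hn
  have hroot : aeval ((n : K) * x) h = 0 := by rw [hh]; exact minpoly.aeval _ _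
  rw [← hh]
  obtain ⟨R, hR⟩ : ∃ R : ℤ[X], R = h.comp (C (n : ℤ) * X) := ⟨_, rfl⟩
  by_cases hn0 : n = 0
  · rcases Nat.eq_zero_or_pos h.natDegree with h0 | h0
    · exfalso
      have h1 : h = 1 := (Polynomial.Monic.natDegree_eq_zero hmon).1 h0
      rw [h1, map_one] at hroot
      exact one_ne_zero hroot
    · rw [hn0]
      simp [h0.ne']
  have hRx : aeval x R = 0 := by
    rw [hR, aeval_comp]
    simpa using hroot
  have hdvd := dvd_of_root hf hx hRx
  have hnz : (n : ℤ) ≠ 0 := by exact_mod_cast hn0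
  have hlead : R.leadingCoeff = (n : ℤ) ^ h.natDegree := by
    rw [hR, leadingCoeff_comp (by rw [natDegree_C_mul_X _ hnz]; exact one_ne_zero),
      hmon.leadingCoeff, one_mul, leadingCoeff_C_mul_X]
  rw [← hlead]
  exact leadingCoeff_dvd_leadingCoeff hdvd

theorem embedding_le {K : Type*} [Field K] [NumberField K] (x : K) (φ : K →+* ℂ) :
    max 1 ‖φ x‖ ≤ mulHeight₁ x := by
  classical
  rw [NumberField.mulHeight₁_eq]
  have h1 : ∀ v : InfinitePlace K, (1 : ℝ) ≤ max (v x) 1 ^ v.mult := fun v =>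
    one_le_pow₀ (le_max_right _ _)
  have h2 : (1 : ℝ) ≤ ∏ᶠ v : FinitePlace K, max (v x) 1 :=
    one_le_finprod fun v => le_max_right _ _
  have h3 : max 1 ‖φ x‖ ≤ ∏ v : InfinitePlace K, max (v x) 1 ^ v.mult := by
    rw [← Finset.mul_prod_erase univ _ (mem_univ (InfinitePlace.mk φ))]
    have h4 : (1 : ℝ) ≤ ∏ v ∈ univ.erase (InfinitePlace.mk φ), max (v x) 1 ^ v.mult :=
      Finset.one_le_prod fun v _ => h1 v
    have h5 : max 1 ‖φ x‖ ≤ max (InfinitePlace.mk φ x) 1 ^ (InfinitePlace.mk φ).mult := by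
      rw [InfinitePlace.apply, max_comm]
      exact le_self_pow₀ (le_max_right _ _) (InfinitePlace.mult_ne_zero)
    calc max 1 ‖φ x‖ = max 1 ‖φ x‖ * 1 := (mul_one _).symm
      _ ≤ _ := mul_le_mul h5 h4 zero_le_one (by positivity)
  calc max 1 ‖φ x‖ = max 1 ‖φ x‖ * 1 := (mul_one _).symm
    _ ≤ _ := mul_le_mul h3 h2 zero_le_one (by positivity)

/-- a primitive polynomial over a number field: the Mahler measure and the height -/
theorem mahler_le {K : Type*} [Field K] [NumberField K] {f : ℤ[X]} (hf : Irreducible f) {x : K}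
    (hx : aeval x f = 0) : (f.map (Int.castRingHom ℂ)).mahlerMeasure ≤
      mulHeight₁ x ^ (Module.finrank ℚ K + f.natDegree) := by
  classical
  obtain ⟨n, hn0, hn1, hn2⟩ := exists_nat_le_mulHeight₁ x
  have hM1 : 1 ≤ mulHeight₁ x := by
    have : (1 : ℝ) ≤ n := by exact_mod_cast Nat.one_le_iff_ne_zero.2 hn0
    linarith
  have hinj : Function.Injective (Int.castRingHom ℂ) := RingHom.injective_int _
  rw [mahlerMeasure_eq_leadingCoeff_mul_prod_roots, pow_add]
  apply mul_le_mul
  · -- the leading coefficient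
    have h1 := leading_dvd hf hx hn2
    have h2 : (minpoly ℤ ((n : K) * x)).natDegree ≤ Module.finrank ℚ K := by
      have h3 := minpoly.isIntegrallyClosed_eq_field_fractions' ℚ hn2
      have h4 : (minpoly ℚ ((n : K) * x)).natDegree = (minpoly ℤ ((n : K) * x)).natDegree := by
        rw [h3, (minpoly.monic hn2).natDegree_map]
      rw [← h4]
      exact minpoly.natDegree_le _
    rw [leadingCoeff_map_of_injective hinj, eq_intCast]
    have h5 : |f.leadingCoeff| ≤ (n : ℤ) ^ (minpoly ℤ ((n : K) * x)).natDegree :=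
      Int.le_of_dvd (by positivity) ((abs_dvd _ _).2 h1)
    have h6 : ‖((f.leadingCoeff : ℤ) : ℂ)‖ = ((|f.leadingCoeff| : ℤ) : ℝ) := by
      rw [Complex.norm_intCast, Int.cast_abs]
    rw [h6]
    have h7 : ((|f.leadingCoeff| : ℤ) : ℝ) ≤ (n : ℝ) ^ (minpoly ℤ ((n : K) * x)).natDegree := by
      exact_mod_cast h5
    refine h7.trans ((pow_le_pow_left₀ (Nat.cast_nonneg _) hn1 _).trans ?_)
    exact pow_le_pow_right₀ hM1 h2
  · have hroots : ∀ z ∈ (f.map (Int.castRingHom ℂ)).roots, max 1 ‖z‖ ≤ mulHeight₁ x := by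
      intro z hz
      have hz0 : aeval z f = 0 := by
        have := (mem_roots'.1 hz).2
        rw [IsRoot, eval_map] at this
        exact this
      have h1 : z ∈ (minpoly ℚ x).rootSet ℂ := by
        rw [mem_rootSet]
        refine ⟨minpoly.ne_zero (Algebra.IsIntegral.isIntegral x), ?_⟩
        rw [← minpoly_eq hf hx, map_mul]
        have h2 : aeval z (f.map (Int.castRingHom ℚ)) = aeval z f :=
          aeval_map_algebraMap ℚ z f
        rw [h2, hz0, zero_mul]
      rw [← NumberField.Embeddings.range_eval_eq_rootSet_minpoly K ℂ x] at h1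
      obtain ⟨φ, rfl⟩ := h1
      exact embedding_le x φ
    have hcard : Multiset.card (f.map (Int.castRingHom ℂ)).roots ≤ f.natDegree := by
      refine (card_roots' _).trans ?_
      rw [natDegree_map_eq_of_injective hinj]
    have key : ∀ (s : Multiset ℂ), (∀ z ∈ s, max 1 ‖z‖ ≤ mulHeight₁ x) →
        (s.map (fun a ↦ max 1 ‖a‖)).prod ≤ mulHeight₁ x ^ Multiset.card s := by
      intro s
      induction s using Multiset.induction_on with
      | empty => intro _; simp
      | cons a s ih =>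
        intro hs
        rw [Multiset.map_cons, Multiset.prod_cons, Multiset.card_cons, pow_succ']
        exact mul_le_mul (hs a (Multiset.mem_cons_self a s))
          (ih fun z hz => hs z (Multiset.mem_cons_of_mem hz))
          (Multiset.prod_map_nonneg fun z _ => by positivity) (by positivity)
    exact (key _ hroots).trans (pow_le_pow_right₀ hM1 hcard)
  · exact Multiset.prod_map_nonneg fun z _ => by positivity
  · positivity

/-- the field generated by a complex algebraic number -/
theorem exists_field {α : ℂ} {f : ℤ[X]} (hf : Irreducible f) (hα : aeval α f = 0) :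
    ∃ _ : NumberField ℚ⟮α⟯, Module.finrank ℚ ℚ⟮α⟯ = f.natDegree ∧
      aeval (AdjoinSimple.gen ℚ α) f = 0 ∧
      absLogHeight₁ α = Real.log (mulHeight₁ (AdjoinSimple.gen ℚ α)) / f.natDegree := by
  have hint := isIntegral_of_root hf hα
  have : FiniteDimensional ℚ ℚ⟮α⟯ := adjoin.finiteDimensional hint
  have hnf : NumberField ℚ⟮α⟯ := {}
  have hfr : Module.finrank ℚ ℚ⟮α⟯ = f.natDegree := by
    rw [adjoin.finrank hint, natDegree_minpoly hf hα]
  refine ⟨hnf, hfr, ?_, ?_⟩
  · have h1 : algebraMap ℚ⟮α⟯ ℂ (aeval (AdjoinSimple.gen ℚ α) f) = 0 := by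
      rw [← aeval_algebraMap_apply, AdjoinSimple.algebraMap_gen]
      exact hα
    exact (map_eq_zero_iff _ (algebraMap ℚ⟮α⟯ ℂ).injective).1 h1
  · unfold absLogHeight₁ absMulHeight₁
    rw [dif_pos hint, Real.log_rpow (by positivity), hfr]
    rw [inv_mul_eq_div]

/-- the coefficients are bounded in terms of the height -/
theorem coeff_le {α : ℂ} {f : ℤ[X]} (hf : Irreducible f) (hα : aeval α f = 0) (j : ℕ) :
    ((|f.coeff j| : ℤ) : ℝ) ≤ Real.exp (f.natDegree + 2 * f.natDegree ^ 2 * absLogHeight₁ α) := by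
  obtain ⟨_, h1, h2, h3⟩ := exists_field hf hα
  have hpos : (0 : ℝ) < f.natDegree := by exact_mod_cast natDegree_pos_of_root hf hα
  have h4 := mahler_le hf h2
  rw [h1] at h4
  have h5 := norm_coeff_le_choose_mul_mahlerMeasure j (f.map (Int.castRingHom ℂ))
  rw [natDegree_map_eq_of_injective (RingHom.injective_int _), coeff_map, eq_intCast] at h5
  have h6 : ‖((f.coeff j : ℤ) : ℂ)‖ = ((|f.coeff j| : ℤ) : ℝ) := by
    rw [Complex.norm_intCast, Int.cast_abs]
  rw [h6] at h5
  have h7 : ((f.natDegree.choose j : ℕ) : ℝ) ≤ Real.exp f.natDegree := by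
    have h8 : f.natDegree.choose j ≤ 2 ^ f.natDegree := Nat.choose_le_two_pow _ _
    have h9 : ((f.natDegree.choose j : ℕ) : ℝ) ≤ 2 ^ f.natDegree := by exact_mod_cast h8
    refine h9.trans ?_
    have h10 : (2 : ℝ) ≤ Real.exp 1 := by
      have := Real.add_one_le_exp (1 : ℝ)
      linarith
    calc (2 : ℝ) ^ f.natDegree ≤ Real.exp 1 ^ f.natDegree := pow_le_pow_left₀ (by norm_num) h10 _
      _ = Real.exp f.natDegree := by rw [← Real.exp_nat_mul, mul_one]
  have h11 : mulHeight₁ (AdjoinSimple.gen ℚ α) = Real.exp (f.natDegree * absLogHeight₁ α) := by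
    rw [h3, mul_div_cancel₀ _ hpos.ne', Real.exp_log (by positivity)]
  refine h5.trans ((mul_le_mul h7 h4 (mahlerMeasure_nonneg _) (Real.exp_pos _).le).trans ?_)
  rw [h11, ← Real.exp_nat_mul, ← Real.exp_add]
  apply Real.exp_le_exp.2
  push_cast
  apply le_of_eq
  ring

/-- the height is bounded in terms of the coefficients -/
theorem height_le {α : ℂ} {f : ℤ[X]} (hf : Irreducible f) (hα : aeval α f = 0) {B : ℝ}
    (hB : ∀ j, ((|f.coeff j| : ℤ) : ℝ) ≤ B) :
    Real.exp (absLogHeight₁ α) ≤ (f.natDegree + 1) * B := by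
  obtain ⟨_, h1, h2, h3⟩ := exists_field hf hα
  have hposn := natDegree_pos_of_root hf hα
  have hpos : (0 : ℝ) < f.natDegree := by exact_mod_cast hposn
  have h4 := Pool.Agent.H.MP_92cab9_nt.mahler_bound (AdjoinSimple.gen ℚ α) hf h2
  have h5 : absLogHeight₁ α ≤ Real.log (f.map (Int.castRingHom ℂ)).mahlerMeasure := by
    rw [h3, div_le_iff₀ hpos]
    have h6 : Real.log (mulHeight₁ (AdjoinSimple.gen ℚ α)) =
      logHeight₁ (AdjoinSimple.gen ℚ α) := rfl
    rw [h6]
    refine h4.trans ?_
    rw [h1, mul_div_cancel₀ _ hpos.ne']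
    have h7 : 0 ≤ Real.log (f.map (Int.castRingHom ℂ)).mahlerMeasure :=
      Real.log_nonneg (one_le_mahlerMeasure_of_ne_zero hf.ne_zero)
    have h8 : (1 : ℝ) ≤ f.natDegree := by exact_mod_cast hposn
    nlinarith
  have h9 : 0 < (f.map (Int.castRingHom ℂ)).mahlerMeasure := by
    apply mahlerMeasure_pos_of_ne_zero
    rw [Ne, Polynomial.map_eq_zero_iff (RingHom.injective_int _)]
    exact hf.ne_zero
  calc Real.exp (absLogHeight₁ α) ≤ (f.map (Int.castRingHom ℂ)).mahlerMeasure := by
        rw [← Real.exp_log h9]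
        exact Real.exp_le_exp.2 h5
    _ ≤ (f.map (Int.castRingHom ℂ)).sum fun _ a ↦ ‖a‖ := mahlerMeasure_le_sum_norm_coeff _
    _ = ∑ i ∈ range (f.natDegree + 1), ‖(f.map (Int.castRingHom ℂ)).coeff i‖ := by
        rw [sum_over_range' _ (by simp) (f.natDegree + 1) (by
          rw [natDegree_map_eq_of_injective (RingHom.injective_int _)]
          exact Nat.lt_succ_self _)]
    _ ≤ ∑ _i ∈ range (f.natDegree + 1), B := by
        refine sum_le_sum fun i _ => ?_
        rw [coeff_map, eq_intCast, Complex.norm_intCast, ← Int.cast_abs]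
        exact hB i
    _ = _ := by
        rw [sum_const, card_range, nsmul_eq_mul]
        push_cast
        ring

end Pool.Agent.H99.Bd
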