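import Mathlib
import Pool.Agent.H99.Bd.Nf

/-!
# The truncated counting function of a point of the line over a number field
-/

set_option autoImplicit false

namespace Pool.Agent.H99.Bd

open Finset Polynomial IsDedekindDomain NumberField

/-- the reduction modulo the prime `v` of the point `(x : 1)` is that of the point `p` -/
def Meets {K : Type*} [Field K] [NumberField K] (v : HeightOneSpectrum (𝓞 K)) (p : ℤ × ℤ)
    (x : K) : Prop :=
  v.valuation K ((p.2 : K) * x - p.1) < max (v.valuation K x) 1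

theorem exists_meet {K : Type*} [Field K] [NumberField K] {f : ℤ[X]} (hf : Irreducible f) {x : K}
    (hx : aeval x f = 0) {p : ℤ × ℤ} (hp : IsCoprime p.1 p.2) (hne : (p.2 : K) * x - p.1 ≠ 0)
    {l : ℕ} (hl : l.Prime) (hdvd : (l : ℤ) ∣ hv (f.natDegree + 1) f p) :
    ∃ v : HeightOneSpectrum (𝓞 K), (l : 𝓞 K) ∈ v.asIdeal ∧ Meets v p x := by
  by_contra hcon
  push Not at hcon
  obtain ⟨c, e, h1⟩ := hp
  have hint : ∀ (v : HeightOneSpectrum (𝓞 K)) (z : ℤ), v.valuation K (z : K) ≤ 1 := by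
    intro v z
    have h2 := v.valuation_le_one (K := K) (z : 𝓞 K)
    simpa using h2
  have hγ : ∀ v : HeightOneSpectrum (𝓞 K), (l : 𝓞 K) ∈ v.asIdeal →
      v.valuation K (((c : K) * x + e) / ((p.2 : K) * x - p.1)) ≤ 1 := by
    intro v hv
    have h2 := hcon v hv
    unfold Meets at h2
    rw [not_lt] at h2
    have h3 : v.valuation K ((c : K) * x + e) ≤ max (v.valuation K x) 1 := by
      refine (Valuation.map_add _ _ _).trans (max_le_max ?_ (hint v e))
      rw [map_mul]
      exact mul_le_of_le_one_left' (hint v c)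
    rw [map_div₀]
    have h4 : v.valuation K ((p.2 : K) * x - p.1) ≠ 0 := (Valuation.ne_zero_iff _).2 hne
    exact div_le_one_of_le₀ (h3.trans h2) zero_le
  obtain ⟨N, hN1, hN2⟩ := exists_den hl _ hγ
  obtain ⟨k, hk⟩ := val_dvd hf hx h1 hne hN2
  have h5 : (l : ℤ) ∣ (N : ℤ) ^ k := hdvd.trans hk
  have h6 : l ∣ N ^ k := by exact_mod_cast h5
  exact hN1 (hl.dvd_of_dvd_pow h6)

/-- the primes at which `x` meets one of the points -/
def meetSet {K : Type*} [Field K] [NumberField K] (S : Finset ℕ) {q : ℕ} (P : Fin q → ℤ × ℤ)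
    (x : K) : Set (HeightOneSpectrum (𝓞 K)) :=
  {v | (∀ l ∈ S, (l : 𝓞 K) ∉ v.asIdeal) ∧ ∃ i, Meets v (P i) x}

theorem meetSet_finite {K : Type*} [Field K] [NumberField K] (S : Finset ℕ) {q : ℕ}
    (P : Fin q → ℤ × ℤ) (x : K) (hne : ∀ i, ((P i).2 : K) * x - (P i).1 ≠ 0) :
    (meetSet S P x).Finite := by
  refine Set.Finite.subset ((HeightOneSpectrum.Support.finite (𝓞 K) x).union
    (Set.finite_iUnion fun i : Fin q => HeightOneSpectrum.Support.finite (𝓞 K)
      (((P i).2 : K) * x - (P i).1)⁻¹)) ?_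
  rintro v ⟨-, i, hi⟩
  unfold Meets at hi
  rcases lt_or_ge 1 (v.valuation K x) with h1 | h1
  · left
    exact h1
  · right
    rw [max_eq_right h1] at hi
    rw [Set.mem_iUnion]
    refine ⟨i, ?_⟩
    show 1 < v.valuation K (((P i).2 : K) * x - (P i).1)⁻¹
    rw [map_inv₀]
    have h4 : v.valuation K (((P i).2 : K) * x - (P i).1) ≠ 0 :=
      (Valuation.ne_zero_iff _).2 (hne i)
    exact (one_lt_inv₀ (zero_lt_iff.2 h4)).2 hi

/-- the truncated counting function `N^(1)_S(D, x)`, relative to the number field `K`, normalised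
by the degree of `K` -/
noncomputable def truncCount (K : Type*) [Field K] [NumberField K] (S : Finset ℕ) {q : ℕ}
    (P : Fin q → ℤ × ℤ) (x : K) : ℝ :=
  (∑ᶠ v ∈ meetSet S P x, Real.log (Ideal.absNorm v.asIdeal)) / Module.finrank ℚ K

theorem sum_log_le {K : Type*} [Field K] [NumberField K] {f : ℤ[X]} (hf : Irreducible f) {x : K}
    (hx : aeval x f = 0) {q : ℕ} {P : Fin q → ℤ × ℤ} (hP : ∀ i, IsCoprime (P i).1 (P i).2)
    (hne : ∀ i, ((P i).2 : K) * x - (P i).1 ≠ 0) {S : Finset ℕ} (hS : ∀ l ∈ S, l.Prime)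
    (A : Finset ℕ) (hA : ∀ l ∈ A, l.Prime ∧ l ∉ S ∧
      ∃ i, (l : ℤ) ∣ hv (f.natDegree + 1) f (P i)) :
    ∑ l ∈ A, Real.log l ≤ Module.finrank ℚ K * truncCount K S P x := by
  classical
  have hfin := meetSet_finite S P x hne
  have hr : (0 : ℝ) < Module.finrank ℚ K := by
    exact_mod_cast Module.finrank_pos
  unfold truncCount
  rw [mul_div_cancel₀ _ hr.ne', finsum_mem_eq_finite_toFinset_sum _ hfin]
  have hsel : ∀ l ∈ A, ∃ v : HeightOneSpectrum (𝓞 K), (l : 𝓞 K) ∈ v.asIdeal ∧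
      v ∈ meetSet S P x := by
    intro l hl
    obtain ⟨h1, h2, i, h3⟩ := hA l hl
    obtain ⟨v, hv1, hv2⟩ := exists_meet hf hx (hP i) (hne i) h1 h3
    refine ⟨v, hv1, fun l' hl' hl'v => ?_, i, hv2⟩
    -- two different primes
    have hco : IsCoprime (l : 𝓞 K) (l' : 𝓞 K) := by
      have h4 : Nat.Coprime l l' := (Nat.coprime_primes h1 (hS l' hl')).2 (fun h => h2 (h ▸ hl'))
      have h5 := (Nat.isCoprime_iff_coprime.2 h4).map (Int.castRingHom (𝓞 K))
      simpa using h5
    obtain ⟨a, b, hab⟩ := hco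
    apply v.isPrime.ne_top
    rw [Ideal.eq_top_iff_one, ← hab]
    exact v.asIdeal.add_mem (v.asIdeal.mul_mem_left _ hv1) (v.asIdeal.mul_mem_left _ hl'v)
  have hnn : ∀ v : HeightOneSpectrum (𝓞 K), 0 ≤ Real.log (Ideal.absNorm v.asIdeal) := by
    intro v
    apply Real.log_nonneg
    have := NumberField.HeightOneSpectrum.one_lt_absNorm v
    exact_mod_cast this.le
  rcases A.eq_empty_or_nonempty with rfl | ⟨l0, hl0⟩
  · rw [sum_empty]
    exact sum_nonneg fun v _ => hnn v
  have : Nonempty (HeightOneSpectrum (𝓞 K)) := ⟨(hsel l0 hl0).choose⟩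
  choose! V hV1 hV2 using hsel
  have hinj : Set.InjOn V (A : Set ℕ) := by
    intro l hl l' hl' h
    by_contra hne'
    have h4 : Nat.Coprime l l' := (Nat.coprime_primes (hA l hl).1 (hA l' hl').1).2 hne'
    have h5 := (Nat.isCoprime_iff_coprime.2 h4).map (Int.castRingHom (𝓞 K))
    obtain ⟨a, b, hab⟩ := h5
    apply (V l).isPrime.ne_top
    rw [Ideal.eq_top_iff_one, ← hab]
    have h6 := hV1 l' hl'
    rw [← h] at h6
    refine (V l).asIdeal.add_mem ((V l).asIdeal.mul_mem_left _ ?_)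
      ((V l).asIdeal.mul_mem_left _ ?_)
    · simpa using hV1 l hl
    · simpa using h6
  have hlog : ∀ l ∈ A, Real.log l ≤ Real.log (Ideal.absNorm (V l).asIdeal) := by
    intro l hl
    have hlp := (hA l hl).1
    have h1 : 0 < Ideal.absNorm (V l).asIdeal := by
      have := NumberField.HeightOneSpectrum.one_lt_absNorm (V l)
      omega
    have h2 : l ∣ Ideal.absNorm (V l).asIdeal := by
      by_contra hnd
      have h4 : Nat.Coprime l (Ideal.absNorm (V l).asIdeal) := (hlp.coprime_iff_not_dvd).2 hnd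
      have h5 := (Nat.isCoprime_iff_coprime.2 h4).map (Int.castRingHom (𝓞 K))
      obtain ⟨a, b, hab⟩ := h5
      apply (V l).isPrime.ne_top
      rw [Ideal.eq_top_iff_one, ← hab]
      refine (V l).asIdeal.add_mem ((V l).asIdeal.mul_mem_left _ ?_)
        ((V l).asIdeal.mul_mem_left _ ?_)
      · simpa using hV1 l hl
      · simpa using Ideal.absNorm_mem (V l).asIdeal
    apply Real.log_le_log (by exact_mod_cast hlp.pos)
    exact_mod_cast Nat.le_of_dvd h1 h2
  calc ∑ l ∈ A, Real.log l ≤ ∑ l ∈ A, Real.log (Ideal.absNorm (V l).asIdeal) :=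
        sum_le_sum hlog
    _ = ∑ v ∈ A.image V, Real.log (Ideal.absNorm v.asIdeal) := by
        rw [sum_image (fun a ha b hb h => hinj ha hb h)]
    _ ≤ _ := by
        refine sum_le_sum_of_subset_of_nonneg ?_ (fun v _ _ => ?_)
        · intro v hv
          obtain ⟨l, hl, rfl⟩ := mem_image.1 hv
          rw [Set.Finite.mem_toFinset]
          exact hV2 l hl
        · exact hnn v

end Pool.Agent.H99.Bd
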