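import Mathlib
import Pool.Graph.R_pool_sql_team_seeded_64922ed1.X286.Sz.Pow
import Pool.Agent.H99.Bd.Cnt
import Pool.Agent.H99.Bd.Nf2
import Pool.Agent.H99.Bd.Ht

/-!
# Few points of bounded degree with a small truncated counting function
-/

set_option autoImplicit false

namespace Pool.Agent.H99.Bd

open Finset Polynomial NumberField IntermediateField Pool.Agent.X286.Vn Pool.Agent.X286.Sz

theorem pp_of' {a n s Z : ℕ} {S : Finset ℕ} (ha : a ≠ 0) (hS : S.card ≤ s)
    (hSZ : ∀ p ∈ S, p ≤ Z) (hZ1 : 1 ≤ Z)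
    (hV : ((a.primeFactors.filter (fun p => p ∉ S)).image a.factorization).card ≤ n)
    (hZ : ∏ p ∈ a.primeFactors.filter (fun p => p ∉ S), p ≤ Z) : PowerProduct (n + s) Z a := by
  classical
  obtain ⟨Q, hQ⟩ : ∃ Q, Q = a.primeFactors.filter (fun p => p ∉ S) := ⟨_, rfl⟩
  rw [← hQ] at hV hZ
  have key : PowerProduct (n + s) Z (∏ i ∈ (Q.image a.factorization).disjSum
      (a.primeFactors.filter (fun p => p ∈ S)),
        (Sum.elim (fun e => ∏ p ∈ Q.filter (fun p => a.factorization p = e), p)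
          (fun p => p) i) ^ (Sum.elim (fun e => e) (fun p => a.factorization p) i)) := by
    apply pp_finset
    · rw [card_disjSum]
      refine add_le_add hV ((card_le_card ?_).trans hS)
      intro p hp
      exact (mem_filter.1 hp).2
    · exact hZ1
    · intro i hi
      rw [mem_disjSum] at hi
      rcases hi with ⟨e, he, rfl⟩ | ⟨p, hp, rfl⟩
      · simp only [Sum.elim_inl]
        have hpos : ∀ p ∈ Q, 1 ≤ p := fun p hp => by
          rw [hQ] at hp
          exact (Nat.prime_of_mem_primeFactors (mem_filter.1 hp).1).one_lt.le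
        constructor
        · exact Nat.one_le_iff_ne_zero.2 (prod_ne_zero_iff.2 fun p hp => by
            have := hpos p (mem_filter.1 hp).1
            omega)
        · exact (prod_le_prod_of_subset_of_one_le' (filter_subset _ _)
            fun p hp _ => hpos p hp).trans hZ
      · simp only [Sum.elim_inr]
        rw [mem_filter] at hp
        exact ⟨(Nat.prime_of_mem_primeFactors hp.1).one_lt.le, hSZ p hp.2⟩
  rw [prod_disjSum] at key
  simp only [Sum.elim_inl, Sum.elim_inr] at key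
  have e1 : ∏ e ∈ Q.image a.factorization,
      (∏ p ∈ Q.filter (fun p => a.factorization p = e), p) ^ e =
      ∏ p ∈ Q, p ^ a.factorization p := by
    rw [← prod_fiberwise_of_maps_to (s := Q) (t := Q.image a.factorization)
      (g := a.factorization) (fun p hp => mem_image_of_mem _ hp)]
    refine prod_congr rfl fun e _ => ?_
    rw [← prod_pow]
    refine prod_congr rfl fun p hp => ?_
    rw [(mem_filter.1 hp).2]
  rw [e1] at key
  have e2 : a = (∏ p ∈ Q, p ^ a.factorization p) *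
      ∏ p ∈ a.primeFactors.filter (fun p => p ∈ S), p ^ a.factorization p := by
    conv_lhs => rw [← Nat.prod_factorization_pow_eq_self ha]
    rw [Finsupp.prod, Nat.support_factorization, mul_comm, hQ]
    exact (prod_filter_mul_prod_filter_not _ _ _).symm
  rw [e2]
  exact key

theorem exists_rep {q N Y : ℕ} (y : Fin q → ℤ) (hy : ∀ i, PowerProduct N Y (y i).natAbs) :
    Rep (q * N) 0 Y y := by
  classical
  choose b e hb he using hy
  obtain ⟨φ, hφ⟩ : ∃ φ : Fin q × Fin N ≃ Fin (q * N), φ = finProdFinEquiv := ⟨_, rfl⟩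
  refine ⟨fun i => (y i).sign, fun j => b (φ.symm j).1 (φ.symm j).2, fun i j =>
    if (φ.symm j).1 = i then e i (φ.symm j).2 else 0, fun j => hb _ _, fun i => ?_, fun i => ?_⟩
  · rw [pow_zero]
    show |(y i).sign| ≤ 1
    rcases lt_trichotomy (y i) 0 with h | h | h
    · rw [Int.sign_eq_neg_one_of_neg h]; simp
    · rw [h]; simp
    · rw [Int.sign_eq_one_of_pos h]; simp
  · have h1 : ∏ j, (b (φ.symm j).1 (φ.symm j).2 : ℤ) ^ (if (φ.symm j).1 = i then
        e i (φ.symm j).2 else 0) = (((y i).natAbs : ℕ) : ℤ) := by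
      rw [Equiv.prod_comp φ.symm (fun z : Fin q × Fin N => (b z.1 z.2 : ℤ) ^ (if z.1 = i then
        e i z.2 else 0)), Fintype.prod_prod_type, Finset.prod_eq_single i]
      · simp only [if_true]
        rw [he i]
        push_cast
        rfl
      · intro i' _ hne
        refine prod_eq_one fun k _ => ?_
        rw [if_neg hne, pow_zero]
      · intro h
        exact absurd (mem_univ i) h
    rw [h1, Int.sign_mul_natAbs]

theorem hv_neg (n : ℕ) (f : ℤ[X]) (p : ℤ × ℤ) : hv n (-f) p = -hv n f p := by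
  have h1 := hv_C_mul n (-1) f p
  rw [C_neg, C_1] at h1
  simpa using h1

theorem Cand.neg {d q N E : ℕ} {δ : ℝ} {κ Y H : ℕ} {P : Fin q → ℤ × ℤ} {f : ℤ[X]}
    (h : Cand d q N E δ κ Y H P f) : Cand d q N E δ κ Y H P (-f) := by
  refine ⟨?_, ?_, fun i => ?_, fun i => ?_, ?_, ?_⟩
  · rw [← neg_one_mul]
    exact (irreducible_isUnit_mul (isUnit_one.neg)).2 h.irr
  · rw [natDegree_neg]
    exact h.deg
  · rw [hv_neg]
    exact neg_ne_zero.2 (h.nz i)
  · rw [hv_neg, abs_neg]
    exact h.hi i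
  · obtain ⟨s, b, e, h1, h2, h3⟩ := h.rep
    refine ⟨fun i => -s i, b, e, h1, fun i => ?_, fun i => ?_⟩
    · rw [abs_neg]
      exact h2 i
    · show hv (d + 1) (-f) (P i) = -s i * ∏ j, (b j : ℤ) ^ e i j
      have h4 : hv (d + 1) f (P i) = s i * ∏ j, (b j : ℤ) ^ e i j := h3 i
      rw [hv_neg, h4, neg_mul]
  · obtain ⟨j, hj⟩ := h.big
    refine ⟨j, ?_⟩
    rw [coeff_neg, abs_neg]
    exact hj

/-- a finite set has few elements if all its finite subsets have few elements -/
theorem finite_of_le {α : Type*} (s : Set α) (B : ℝ)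
    (h : ∀ A : Finset α, (A : Set α) ⊆ s → (A.card : ℝ) ≤ B) :
    s.Finite ∧ (s.ncard : ℝ) ≤ B := by
  have hfin : s.Finite := by
    by_contra hinf
    obtain ⟨t, ht1, ht2⟩ := Set.Infinite.exists_subset_card_eq hinf (⌊B⌋₊ + 1)
    have h1 := h t ht1
    rw [ht2] at h1
    have h2 := Nat.lt_floor_add_one B
    push_cast at h1
    linarith
  refine ⟨hfin, ?_⟩
  rw [Set.ncard_eq_toFinset_card s hfin]
  exact h _ (by rw [Set.Finite.coe_toFinset])

/-- the height of the divisor -/
noncomputable def dH {q : ℕ} (P : Fin q → ℤ × ℤ) : ℕ :=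
  univ.sup fun i => max (P i).1.natAbs (P i).2.natAbs

theorem dH_le {q : ℕ} (P : Fin q → ℤ × ℤ) (i : Fin q) :
    |(P i).1| ≤ (dH P : ℤ) ∧ |(P i).2| ≤ (dH P : ℤ) := by
  have h1 : max (P i).1.natAbs (P i).2.natAbs ≤ dH P :=
    Finset.le_sup (f := fun i => max (P i).1.natAbs (P i).2.natAbs) (mem_univ i)
  rw [Int.abs_eq_natAbs, Int.abs_eq_natAbs]
  have h2 := (le_max_left _ _).trans h1
  have h3 := (le_max_right _ _).trans h1
  exact ⟨by exact_mod_cast h2, by exact_mod_cast h3⟩

theorem value_le {f : ℤ[X]} {H : ℕ} {B : ℝ} (hB : ∀ j, ((|f.coeff j| : ℤ) : ℝ) ≤ B) {p : ℤ × ℤ}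
    (hp : |p.1| ≤ (H : ℤ) ∧ |p.2| ≤ (H : ℤ)) :
    ((|hv (f.natDegree + 1) f p| : ℤ) : ℝ) ≤ (f.natDegree + 1) * (B * (H : ℝ) ^ f.natDegree) := by
  have hp1 : |(p.1 : ℝ)| ≤ H := by exact_mod_cast hp.1
  have hp2 : |(p.2 : ℝ)| ≤ H := by exact_mod_cast hp.2
  have hB0 : 0 ≤ B := le_trans (by positivity) (hB 0)
  rw [hv_range, Int.cast_abs, Int.cast_sum]
  refine (abs_sum_le_sum_abs _ _).trans ?_
  have h1 : ∀ k ∈ range (f.natDegree + 1), |((f.coeff k * (p.1 ^ k * p.2 ^ (f.natDegree - k)) : ℤ)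
      : ℝ)| ≤ B * (H : ℝ) ^ f.natDegree := by
    intro k hk
    rw [mem_range] at hk
    push_cast
    rw [abs_mul, abs_mul, abs_pow, abs_pow]
    have h2 : (H : ℝ) ^ f.natDegree = (H : ℝ) ^ k * (H : ℝ) ^ (f.natDegree - k) := by
      rw [← pow_add]
      congr 1
      omega
    rw [h2]
    have h3 := hB k
    rw [Int.cast_abs] at h3
    exact mul_le_mul h3 (mul_le_mul (pow_le_pow_left₀ (abs_nonneg _) hp1 _)
      (pow_le_pow_left₀ (abs_nonneg _) hp2 _) (by positivity) (by positivity))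
      (by positivity) hB0
  refine (sum_le_sum h1).trans (le_of_eq ?_)
  rw [sum_const, card_range, nsmul_eq_mul]
  push_cast
  ring

theorem hv_eq_zero {K : Type*} [Field K] [CharZero K] {f : ℤ[X]} {x : K} (hx : aeval x f = 0)
    {p : ℤ × ℤ} (h : (p.2 : K) * x - p.1 = 0) : hv (f.natDegree + 1) f p = 0 := by
  have h1 : ((hv (f.natDegree + 1) f p : ℤ) : K) = (p.2 : K) ^ f.natDegree * aeval x f := by
    rw [hv_range, aeval_eq_sum_range, Int.cast_sum, Finset.mul_sum]
    refine sum_congr rfl fun k hk => ?_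
    rw [mem_range] at hk
    have h2 : (p.1 : K) = (p.2 : K) * x := (sub_eq_zero.1 h).symm
    have h3 : (p.2 : K) ^ f.natDegree = (p.2 : K) ^ k * (p.2 : K) ^ (f.natDegree - k) := by
      rw [← pow_add]
      congr 1
      omega
    push_cast
    rw [h2, h3, mul_pow, zsmul_eq_mul]
    ring
  rw [hx, mul_zero] at h1
  exact_mod_cast h1

end Pool.Agent.H99.Bd
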